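import Mathlib

/-! Kaibel–Weltge rectangle argument for unique disjointness. -/

namespace Pool.Agent.V1154.XC

/-- Number of common elements of two subsets of `Fin n`. -/
def meet {n : ℕ} (a b : Fin n → Bool) : ℕ := ∑ i, if a i = true ∧ b i = true then 1 else 0

theorem meet_cons {n : ℕ} (x y : Bool) (a b : Fin n → Bool) :
    meet (Fin.cons x a : Fin (n + 1) → Bool) (Fin.cons y b) =
      (if x = true ∧ y = true then 1 else 0) + meet a b := by
  simp only [meet, Fin.sum_univ_succ, Fin.cons_zero, Fin.cons_succ]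

theorem sum_cons {n : ℕ} (F : (Fin (n + 1) → Bool) → ℕ) :
    ∑ a, F a = ∑ a : Fin n → Bool, (F (Fin.cons true a) + F (Fin.cons false a)) := by
  rw [← (Fin.consEquiv (fun _ : Fin (n + 1) => Bool)).sum_comp, Fintype.sum_prod_type,
    Fintype.sum_bool, Finset.sum_add_distrib]
  rfl

open Classical in
/-- the disjointness count of a rectangle `A × B` -/
noncomputable def cnt {n : ℕ} (A B : (Fin n → Bool) → Prop) : ℕ :=
  ∑ a, ∑ b, if A a ∧ B b ∧ meet a b = 0 then 1 else 0

theorem cnt_le : ∀ (n : ℕ) (A B : (Fin n → Bool) → Prop),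
    (∀ a b, A a → B b → meet a b ≠ 1) → cnt A B ≤ 2 ^ n := by
  classical
  intro n
  induction n with
  | zero =>
    intro A B _
    rw [cnt, Fintype.sum_unique, Fintype.sum_unique]
    split_ifs <;> simp
  | succ n ih =>
    intro A B hAB
    set A0 : (Fin n → Bool) → Prop := fun a => A (Fin.cons false a) with hA0
    set A1 : (Fin n → Bool) → Prop := fun a => A (Fin.cons true a) with hA1
    set B0 : (Fin n → Bool) → Prop := fun a => B (Fin.cons false a) with hB0
    set B1 : (Fin n → Bool) → Prop := fun a => B (Fin.cons true a) with hB1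
    have h1 := ih (fun a => A0 a ∨ A1 a) B0 (by
      rintro a b (ha | ha) hb h
      · exact hAB _ _ ha hb (by rw [meet_cons]; simpa using h)
      · exact hAB _ _ ha hb (by rw [meet_cons]; simpa using h))
    have h2 := ih A0 (fun a => B0 a ∨ B1 a) (by
      rintro a b ha (hb | hb) h
      · exact hAB _ _ ha hb (by rw [meet_cons]; simpa using h)
      · exact hAB _ _ ha hb (by rw [meet_cons]; simpa using h))
    have h3 : cnt A B ≤ cnt (fun a => A0 a ∨ A1 a) B0 + cnt A0 (fun a => B0 a ∨ B1 a) := by
      rw [cnt, cnt, cnt, ← Finset.sum_add_distrib, sum_cons]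
      refine Finset.sum_le_sum fun a _ => ?_
      rw [← Finset.sum_add_distrib, sum_cons, ← Finset.sum_add_distrib]
      refine Finset.sum_le_sum fun b _ => ?_
      have h11 : A1 a → B1 b → meet a b ≠ 0 := by
        intro ha hb h
        exact hAB _ _ ha hb (by rw [meet_cons]; simp [h])
      simp only [meet_cons]
      by_cases hm : meet a b = 0
      · have h11' : ¬ (A1 a ∧ B1 b) := fun h => h11 h.1 h.2 hm
        by_cases c1 : A0 a <;> by_cases c2 : A1 a <;> by_cases c3 : B0 b <;>
          by_cases c4 : B1 b <;>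
          simp [hA0, hA1, hB0, hB1] at c1 c2 c3 c4 h11' <;>
          simp_all
      · simp [hm]
    calc cnt A B ≤ _ := h3
      _ ≤ 2 ^ n + 2 ^ n := Nat.add_le_add h1 h2
      _ = 2 ^ (n + 1) := by ring

theorem cnt_top : ∀ n : ℕ, cnt (n := n) (fun _ => True) (fun _ => True) = 3 ^ n := by
  classical
  intro n
  induction n with
  | zero =>
    rw [cnt, Fintype.sum_unique, Fintype.sum_unique]
    simp [meet]
  | succ n ih =>
    rw [pow_succ, ← ih, cnt, cnt, sum_cons, Finset.sum_mul]
    refine Finset.sum_congr rfl fun a _ => ?_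
    rw [← Finset.sum_add_distrib, sum_cons, Finset.sum_mul]
    refine Finset.sum_congr rfl fun b _ => ?_
    simp only [meet_cons]
    by_cases hm : meet a b = 0
    · simp [hm]
    · simp [hm]

/-- The rectangle covering bound. -/
theorem cover_bound (n r : ℕ) (A B : Fin r → (Fin n → Bool) → Prop)
    (h1 : ∀ k a b, A k a → B k b → meet a b ≠ 1)
    (h2 : ∀ a b, meet a b = 0 → ∃ k, A k a ∧ B k b) : 3 ^ n ≤ r * 2 ^ n := by
  classical
  have h3 : cnt (n := n) (fun _ => True) (fun _ => True) ≤ ∑ k, cnt (A k) (B k) := by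
    have hsw : ∑ k, cnt (A k) (B k)
        = ∑ a, ∑ b, ∑ k, if A k a ∧ B k b ∧ meet a b = 0 then (1 : ℕ) else 0 := by
      simp only [cnt]
      rw [Finset.sum_comm]
      exact Finset.sum_congr rfl fun a _ => Finset.sum_comm
    rw [hsw, cnt]
    refine Finset.sum_le_sum fun a _ => ?_
    refine Finset.sum_le_sum fun b _ => ?_
    by_cases hm : meet a b = 0
    · obtain ⟨k, hk⟩ := h2 a b hm
      simp only [hm, and_true, true_and, if_true]
      have := Finset.single_le_sum (f := fun k => if A k a ∧ B k b then (1 : ℕ) else 0)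
        (s := Finset.univ) (fun i _ => Nat.zero_le _) (Finset.mem_univ k)
      rwa [if_pos hk] at this
    · simp [hm]
  rw [cnt_top] at h3
  refine h3.trans ((Finset.sum_le_sum fun k _ => cnt_le n (A k) (B k) (h1 k)).trans ?_)
  simp

end Pool.Agent.V1154.XC
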