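import Mathlib

/-! Voronoi's first kind: the Voronoi cell (in dual coordinates) is a zonotope. -/

namespace Pool.Agent.V1154.XC

variable {d : ℕ}

/-- the quadratic form with Selling parameters `r`, `n` -/
noncomputable def qf (r : Fin d → ℝ) (n : Fin d → Fin d → ℝ) (z : Fin d → ℝ) : ℝ :=
  ∑ i, r i * z i ^ 2 + (1 / 2) * ∑ i, ∑ j, n i j * (z i - z j) ^ 2

/-- support function of the zonotope -/
noncomputable def hf (r : Fin d → ℝ) (n : Fin d → Fin d → ℝ) (z : Fin d → ℝ) : ℝ :=
  (1 / 2) * ∑ i, r i * |z i| + (1 / 4) * ∑ i, ∑ j, n i j * |z i - z j|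

/-- the zonotope map -/
noncomputable def zmap (r : Fin d → ℝ) (n : Fin d → Fin d → ℝ) :
    ((Fin d ⊕ Fin d × Fin d) → ℝ) →ₗ[ℝ] (Fin d → ℝ) where
  toFun t k := r k * t (Sum.inl k) + (1 / 2) * ∑ j, n k j * t (Sum.inr (k, j))
    - (1 / 2) * ∑ j, n j k * t (Sum.inr (j, k))
  map_add' s t := by
    funext k
    simp only [Pi.add_apply, mul_add, Finset.sum_add_distrib]
    ring
  map_smul' c t := by
    funext k
    simp only [Pi.smul_apply, smul_eq_mul, RingHom.id_apply]
    have h1 : ∀ f g : Fin d → ℝ, ∑ j, f j * (c * g j) = c * ∑ j, f j * g j := by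
      intro f g
      rw [Finset.mul_sum]
      exact Finset.sum_congr rfl fun j _ => by ring
    rw [h1 (fun j => n k j) (fun j => t (Sum.inr (k, j))),
      h1 (fun j => n j k) (fun j => t (Sum.inr (j, k)))]
    ring

/-- the cube `[-1/2, 1/2]^E` -/
def cube (ι : Type) : Set (ι → ℝ) := {t | ∀ i, t i ∈ Set.Icc (-(1 / 2) : ℝ) (1 / 2)}

theorem zmap_dot (r : Fin d → ℝ) (n : Fin d → Fin d → ℝ) (t : (Fin d ⊕ Fin d × Fin d) → ℝ)
    (z : Fin d → ℝ) : ∑ k, zmap r n t k * z k
      = ∑ k, r k * t (Sum.inl k) * z k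
        + (1 / 2) * ∑ i, ∑ j, n i j * (t (Sum.inr (i, j)) * (z i - z j)) := by
  have h1 : ∑ i, ∑ j, n i j * (t (Sum.inr (i, j)) * (z i - z j))
      = ∑ i, (∑ j, n i j * t (Sum.inr (i, j))) * z i
        - ∑ i, (∑ j, n j i * t (Sum.inr (j, i))) * z i := by
    have : ∑ i, (∑ j, n j i * t (Sum.inr (j, i))) * z i
        = ∑ i, ∑ j, n i j * t (Sum.inr (i, j)) * z j := by
      rw [Finset.sum_comm]
      refine Finset.sum_congr rfl fun i _ => ?_
      rw [Finset.sum_mul]
    rw [this, ← Finset.sum_sub_distrib]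
    refine Finset.sum_congr rfl fun i _ => ?_
    rw [Finset.sum_mul, ← Finset.sum_sub_distrib]
    exact Finset.sum_congr rfl fun j _ => by ring
  rw [h1, mul_sub, Finset.mul_sum, Finset.mul_sum, ← Finset.sum_sub_distrib,
    ← Finset.sum_add_distrib]
  refine Finset.sum_congr rfl fun k _ => ?_
  simp only [zmap, LinearMap.coe_mk, AddHom.coe_mk]
  ring

theorem mul_le_half_abs (t x : ℝ) (ht : t ∈ Set.Icc (-(1 / 2) : ℝ) (1 / 2)) :
    t * x ≤ (1 / 2) * |x| := by
  have h1 : |t| ≤ 1 / 2 := abs_le.2 ht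
  calc t * x ≤ |t * x| := le_abs_self _
    _ = |t| * |x| := abs_mul _ _
    _ ≤ (1 / 2) * |x| := mul_le_mul_of_nonneg_right h1 (abs_nonneg _)

theorem zmap_dot_le (r : Fin d → ℝ) (n : Fin d → Fin d → ℝ) (hr : ∀ i, 0 ≤ r i)
    (hn : ∀ i j, 0 ≤ n i j) (t : (Fin d ⊕ Fin d × Fin d) → ℝ) (ht : t ∈ cube _)
    (z : Fin d → ℝ) : ∑ k, zmap r n t k * z k ≤ hf r n z := by
  rw [zmap_dot, hf]
  have h1 : ∑ k, r k * t (Sum.inl k) * z k ≤ (1 / 2) * ∑ i, r i * |z i| := by
    rw [Finset.mul_sum]
    refine Finset.sum_le_sum fun k _ => ?_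
    have := mul_le_mul_of_nonneg_left (mul_le_half_abs _ (z k) (ht (Sum.inl k))) (hr k)
    linarith
  have h2 : ∑ i, ∑ j, n i j * (t (Sum.inr (i, j)) * (z i - z j))
      ≤ (1 / 2) * ∑ i, ∑ j, n i j * |z i - z j| := by
    rw [Finset.mul_sum]
    refine Finset.sum_le_sum fun i _ => ?_
    rw [Finset.mul_sum]
    refine Finset.sum_le_sum fun j _ => ?_
    have := mul_le_mul_of_nonneg_left (mul_le_half_abs _ (z i - z j) (ht (Sum.inr (i, j))))
      (hn i j)
    linarith
  linarith

/-- half the sign -/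
noncomputable def hs (x : ℝ) : ℝ := if 0 ≤ x then 1 / 2 else -(1 / 2)

theorem hs_mul (x : ℝ) : hs x * x = (1 / 2) * |x| := by
  unfold hs
  split_ifs with h
  · rw [abs_of_nonneg h]
  · rw [abs_of_neg (not_le.1 h)]
    ring

theorem hs_mem (x : ℝ) : hs x ∈ Set.Icc (-(1 / 2) : ℝ) (1 / 2) := by
  unfold hs
  split_ifs <;> constructor <;> norm_num

theorem exists_opt (r : Fin d → ℝ) (n : Fin d → Fin d → ℝ) (z : Fin d → ℝ) :
    ∃ t ∈ cube (Fin d ⊕ Fin d × Fin d), ∑ k, zmap r n t k * z k = hf r n z := by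
  refine ⟨Sum.elim (fun k => hs (z k)) (fun p => hs (z p.1 - z p.2)), ?_, ?_⟩
  · rintro (k | p)
    · exact hs_mem _
    · exact hs_mem _
  · rw [zmap_dot, hf]
    simp only [Sum.elim_inl, Sum.elim_inr, hs_mul]
    rw [Finset.mul_sum, Finset.mul_sum, Finset.mul_sum]
    congr 1
    · refine Finset.sum_congr rfl fun k _ => ?_
      rw [mul_assoc, hs_mul]
      ring
    · refine Finset.sum_congr rfl fun i _ => ?_
      rw [Finset.mul_sum, Finset.mul_sum]
      exact Finset.sum_congr rfl fun j _ => by ring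

theorem abs_le_sq_int (m : ℤ) : |(m : ℝ)| ≤ (m : ℝ) ^ 2 := by
  have : |m| ≤ m ^ 2 := by
    rcases eq_or_ne m 0 with h | h
    · simp [h]
    · have h1 : 1 ≤ |m| := Int.one_le_abs h
      calc |m| ≤ |m| * |m| := by nlinarith
        _ = m ^ 2 := by rw [← abs_mul, ← sq, abs_of_nonneg (sq_nonneg m)]
  exact_mod_cast this

theorem hf_le_qf (r : Fin d → ℝ) (n : Fin d → Fin d → ℝ) (hr : ∀ i, 0 ≤ r i)
    (hn : ∀ i j, 0 ≤ n i j) (z : Fin d → ℤ) :
    hf r n (fun i => (z i : ℝ)) ≤ (1 / 2) * qf r n (fun i => (z i : ℝ)) := by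
  unfold hf qf
  have h1 : ∑ i, r i * |(z i : ℝ)| ≤ ∑ i, r i * (z i : ℝ) ^ 2 :=
    Finset.sum_le_sum fun i _ => mul_le_mul_of_nonneg_left (abs_le_sq_int _) (hr i)
  have h2 : ∑ i, ∑ j, n i j * |(z i : ℝ) - z j| ≤ ∑ i, ∑ j, n i j * ((z i : ℝ) - z j) ^ 2 := by
    refine Finset.sum_le_sum fun i _ => Finset.sum_le_sum fun j _ => ?_
    refine mul_le_mul_of_nonneg_left ?_ (hn i j)
    have := abs_le_sq_int (z i - z j)
    push_cast at this
    exact this
  linarith

/-- indicator vector -/
def ind (S : Finset (Fin d)) (i : Fin d) : ℝ := if i ∈ S then 1 else 0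

theorem hf_ind (r : Fin d → ℝ) (n : Fin d → Fin d → ℝ) (S : Finset (Fin d)) (s : ℝ)
    (hs : s = 1 ∨ s = -1) :
    hf r n (ind S) = (1 / 2) * qf r n (fun i => s * ind S i) := by
  have hss : s ^ 2 = 1 := by rcases hs with h | h <;> rw [h] <;> norm_num
  unfold hf qf
  have h1 : ∑ i, r i * |ind S i| = ∑ i, r i * (s * ind S i) ^ 2 := by
    refine Finset.sum_congr rfl fun i _ => ?_
    rw [mul_pow, hss]
    unfold ind
    split_ifs <;> norm_num
  have h2 : ∑ i, ∑ j, n i j * |ind S i - ind S j|
      = ∑ i, ∑ j, n i j * (s * ind S i - s * ind S j) ^ 2 := by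
    refine Finset.sum_congr rfl fun i _ => Finset.sum_congr rfl fun j _ => ?_
    rw [← mul_sub, mul_pow, hss]
    unfold ind
    split_ifs <;> norm_num
  rw [h1, h2]
  ring

theorem hf_split (r : Fin d → ℝ) (n : Fin d → Fin d → ℝ) (x y : Fin d → ℝ)
    (h1 : ∀ i, |x i + y i| = |x i| + |y i|)
    (h2 : ∀ i j, |(x i + y i) - (x j + y j)| = |x i - x j| + |y i - y j|) :
    hf r n (fun i => x i + y i) = hf r n x + hf r n y := by
  unfold hf
  simp only [h1, h2, mul_add, Finset.sum_add_distrib]
  ring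

theorem hf_smul (r : Fin d → ℝ) (n : Fin d → Fin d → ℝ) (x : Fin d → ℝ) (c : ℝ) :
    hf r n (fun i => c * x i) = |c| * hf r n x := by
  unfold hf
  have h1 : ∑ i, r i * |c * x i| = |c| * ∑ i, r i * |x i| := by
    rw [Finset.mul_sum]
    exact Finset.sum_congr rfl fun i _ => by rw [abs_mul]; ring
  have h2 : ∑ i, ∑ j, n i j * |c * x i - c * x j| = |c| * ∑ i, ∑ j, n i j * |x i - x j| := by
    rw [Finset.mul_sum]
    refine Finset.sum_congr rfl fun i _ => ?_
    rw [Finset.mul_sum]
    exact Finset.sum_congr rfl fun j _ => by rw [← mul_sub, abs_mul]; ring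
  rw [h1, h2]
  ring

theorem dot_le_pos (r : Fin d → ℝ) (n : Fin d → Fin d → ℝ) (u : Fin d → ℝ) (s : ℝ)
    (hu : ∀ S : Finset (Fin d), s * ∑ i, u i * ind S i ≤ hf r n (ind S)) :
    ∀ (m : ℕ) (z : Fin d → ℝ), (∀ i, 0 ≤ z i) → (Finset.univ.filter fun i => z i ≠ 0).card = m →
      s * ∑ i, u i * z i ≤ hf r n z := by
  classical
  intro m
  induction m using Nat.strong_induction_on with
  | _ m ih =>
    intro z hz hm
    set S := Finset.univ.filter fun i => z i ≠ 0 with hS
    rcases S.eq_empty_or_nonempty with hSe | hSne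
    · have hz0 : ∀ i, z i = 0 := by
        intro i
        by_contra hi
        have : i ∈ S := by simp [hS, hi]
        rw [hSe] at this
        simp at this
      have h1 : z = fun _ => 0 := funext hz0
      rw [h1]
      simp [hf]
    · obtain ⟨i0, hi0, hmin⟩ := S.exists_min_image z hSne
      have hc : 0 < z i0 := lt_of_le_of_ne (hz i0) (Ne.symm (by simpa [hS] using hi0))
      set c := z i0 with hcdef
      set z' : Fin d → ℝ := fun i => z i - c * ind S i with hz'
      have hin : ∀ i, i ∈ S → z' i = z i - c := fun i hi => by simp [hz', ind, hi]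
      have hout : ∀ i, i ∉ S → z i = 0 := fun i hi => by
        by_contra h
        exact hi (by simp [hS, h])
      have hout' : ∀ i, i ∉ S → z' i = 0 := fun i hi => by simp [hz', ind, hi, hout i hi]
      have hz'0 : ∀ i, 0 ≤ z' i := by
        intro i
        by_cases hi : i ∈ S
        · rw [hin i hi]
          have := hmin i hi
          linarith
        · rw [hout' i hi]
      have hlt : (Finset.univ.filter fun i => z' i ≠ 0).card < m := by
        rw [← hm]
        refine Finset.card_lt_card ?_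
        rw [Finset.ssubset_iff_of_subset]
        · refine ⟨i0, hi0, ?_⟩
          simp only [Finset.mem_filter, Finset.mem_univ, true_and, not_not]
          rw [hin i0 hi0]
          simp [hcdef]
        · intro i hi
          simp only [Finset.mem_filter, Finset.mem_univ, true_and] at hi
          by_contra h
          exact hi (hout' i h)
      have h1 := ih _ hlt z' hz'0 rfl
      have h2 := hu S
      have hzz : z = fun i => c * ind S i + z' i := by
        funext i
        simp [hz']
      have h3 : hf r n z = hf r n (fun i => c * ind S i) + hf r n z' := by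
        conv_lhs => rw [hzz]
        refine hf_split r n (fun i => c * ind S i) z' ?_ ?_
        · intro i
          have : 0 ≤ c * ind S i := by
            unfold ind
            split_ifs <;> simp [hc.le]
          rw [abs_of_nonneg this, abs_of_nonneg (hz'0 i), abs_of_nonneg (add_nonneg this (hz'0 i))]
        · intro i j
          by_cases hi : i ∈ S <;> by_cases hj : j ∈ S
          · simp [ind, hi, hj]
          · rw [hout' j hj]
            simp only [ind, hi, hj, if_true, if_false, mul_one, mul_zero, sub_zero, add_zero]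
            rw [abs_of_nonneg hc.le, abs_of_nonneg (hz'0 i),
              abs_of_nonneg (add_nonneg hc.le (hz'0 i))]
          · rw [hout' i hi]
            simp only [ind, hi, hj, if_true, if_false, mul_one, mul_zero, zero_sub, add_zero]
            rw [abs_neg, abs_neg, abs_neg, abs_of_nonneg hc.le, abs_of_nonneg (hz'0 j),
              abs_of_nonneg (add_nonneg hc.le (hz'0 j))]
          · rw [hout' i hi, hout' j hj]
            simp [ind, hi, hj]
      rw [h3, hf_smul, abs_of_pos hc]
      have h4 : s * ∑ i, u i * z i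
          = c * (s * ∑ i, u i * ind S i) + s * ∑ i, u i * z' i := by
        rw [Finset.mul_sum, Finset.mul_sum, Finset.mul_sum, Finset.mul_sum,
          ← Finset.sum_add_distrib]
        refine Finset.sum_congr rfl fun i _ => ?_
        simp only [hz']
        ring
      rw [h4]
      have := mul_le_mul_of_nonneg_left h2 hc.le
      linarith

theorem abs_sub_pos_neg (x y : ℝ) :
    |x - y| = |max x 0 - max y 0| + |max (-x) 0 - max (-y) 0| := by
  rcases le_total 0 x with hx | hx <;> rcases le_total 0 y with hy | hy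
  · simp [hx, hy]
  · rw [max_eq_left hx, max_eq_right hy, max_eq_right (by linarith), max_eq_left (by linarith),
      abs_of_nonneg (by linarith), sub_zero, abs_of_nonneg hx, zero_sub, neg_neg,
      abs_of_nonpos hy]
    ring
  · rw [max_eq_right hx, max_eq_left hy, max_eq_left (by linarith), max_eq_right (by linarith),
      abs_of_nonpos (by linarith), zero_sub, abs_neg, abs_of_nonneg hy, sub_zero, abs_neg,
      abs_of_nonpos hx]
    ring
  · rw [max_eq_right hx, max_eq_right hy, max_eq_left (by linarith), max_eq_left (by linarith)]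
    rw [sub_zero, abs_zero, zero_add, show -x - -y = -(x - y) by ring, abs_neg]

theorem dot_le (r : Fin d → ℝ) (n : Fin d → Fin d → ℝ) (u : Fin d → ℝ)
    (hu : ∀ z : Fin d → ℤ, ∑ i, u i * (z i : ℝ) ≤ (1 / 2) * qf r n (fun i => (z i : ℝ)))
    (z : Fin d → ℝ) : ∑ i, u i * z i ≤ hf r n z := by
  classical
  have key : ∀ s : ℝ, s = 1 ∨ s = -1 → ∀ S : Finset (Fin d),
      s * ∑ i, u i * ind S i ≤ hf r n (ind S) := by
    intro s hs S
    rw [hf_ind r n S s hs]
    rcases hs with hs | hs
    · have h1 := hu (fun i => if i ∈ S then 1 else 0)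
      have h2 : (fun i : Fin d => (((if i ∈ S then 1 else 0 : ℤ)) : ℝ)) = fun i => s * ind S i := by
        funext i
        rw [hs]
        unfold ind
        split_ifs <;> simp
      rw [h2] at h1
      refine le_trans (le_of_eq ?_) h1
      rw [Finset.mul_sum]
      refine Finset.sum_congr rfl fun i _ => ?_
      have h3 := congrFun h2 i
      rw [h3]
      ring
    · have h1 := hu (fun i => if i ∈ S then -1 else 0)
      have h2 : (fun i : Fin d => (((if i ∈ S then -1 else 0 : ℤ)) : ℝ)) = fun i => s * ind S i := by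
        funext i
        rw [hs]
        unfold ind
        split_ifs <;> simp
      rw [h2] at h1
      refine le_trans (le_of_eq ?_) h1
      rw [Finset.mul_sum]
      refine Finset.sum_congr rfl fun i _ => ?_
      have h3 := congrFun h2 i
      rw [h3]
      ring
  have hp := dot_le_pos r n u 1 (key 1 (Or.inl rfl)) _ (fun i => max (z i) 0)
    (fun i => le_max_right _ _) rfl
  have hm := dot_le_pos r n u (-1) (key (-1) (Or.inr rfl)) _ (fun i => max (-z i) 0)
    (fun i => le_max_right _ _) rfl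
  have hsplit : hf r n z = hf r n (fun i => max (z i) 0) + hf r n (fun i => max (-z i) 0) := by
    unfold hf
    have h1 : ∀ i, |z i| = |max (z i) 0| + |max (-z i) 0| := by
      intro i
      have := abs_sub_pos_neg (z i) 0
      simpa using this
    have h2 : ∀ i j, |z i - z j|
        = |max (z i) 0 - max (z j) 0| + |max (-z i) 0 - max (-z j) 0| :=
      fun i j => abs_sub_pos_neg _ _
    simp only [h1, h2, mul_add, Finset.sum_add_distrib]
    ring
  rw [hsplit]
  have h5 : ∑ i, u i * z i = 1 * ∑ i, u i * max (z i) 0 + -1 * ∑ i, u i * max (-z i) 0 := by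
    rw [Finset.mul_sum, Finset.mul_sum, ← Finset.sum_add_distrib]
    refine Finset.sum_congr rfl fun i _ => ?_
    rcases le_total 0 (z i) with h | h
    · rw [max_eq_left h, max_eq_right (by linarith)]
      ring
    · rw [max_eq_right h, max_eq_left (by linarith)]
      ring
  rw [h5]
  linarith

theorem cube_compact (ι : Type) [Fintype ι] : IsCompact (cube ι) := by
  have : cube ι = Set.pi Set.univ fun _ => Set.Icc (-(1 / 2) : ℝ) (1 / 2) := by
    ext t
    exact ⟨fun h i _ => h i, fun h i => h i (Set.mem_univ i)⟩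
  rw [this]
  exact isCompact_univ_pi fun _ => isCompact_Icc

theorem cube_convex (ι : Type) [Fintype ι] : Convex ℝ (cube ι) := by
  have : cube ι = Set.pi Set.univ fun _ => Set.Icc (-(1 / 2) : ℝ) (1 / 2) := by
    ext t
    exact ⟨fun h i _ => h i, fun h i => h i (Set.mem_univ i)⟩
  rw [this]
  exact convex_pi fun _ _ => convex_Icc _ _

/-- **Zonotope theorem.** -/
theorem zono (r : Fin d → ℝ) (n : Fin d → Fin d → ℝ) (hr : ∀ i, 0 ≤ r i)
    (hn : ∀ i j, 0 ≤ n i j) :
    {u : Fin d → ℝ | ∀ z : Fin d → ℤ, ∑ i, u i * (z i : ℝ)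
      ≤ (1 / 2) * qf r n (fun i => (z i : ℝ))} = zmap r n '' cube (Fin d ⊕ Fin d × Fin d) := by
  ext u
  constructor
  · intro hu
    by_contra hnot
    have hcont : Continuous (zmap r n) := LinearMap.continuous_of_finiteDimensional _
    have hclosed : IsClosed (zmap r n '' cube (Fin d ⊕ Fin d × Fin d)) :=
      ((cube_compact _).image hcont).isClosed
    have hconv : Convex ℝ (zmap r n '' cube (Fin d ⊕ Fin d × Fin d)) :=
      (cube_convex _).linear_image _
    obtain ⟨f, c, hf1, hf2⟩ := geometric_hahn_banach_closed_point hconv hclosed hnot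
    set z : Fin d → ℝ := fun i => f (Pi.single i 1) with hz
    have hfz : ∀ v : Fin d → ℝ, f v = ∑ i, v i * z i := by
      intro v
      have : v = ∑ i, v i • (Pi.single i (1 : ℝ) : Fin d → ℝ) := by
        funext j
        simp [Finset.sum_apply, Pi.single_apply]
      conv_lhs => rw [this]
      rw [map_sum]
      refine Finset.sum_congr rfl fun i _ => ?_
      rw [map_smul, smul_eq_mul]
    obtain ⟨t, ht, ht2⟩ := exists_opt r n z
    have h1 := hf1 _ ⟨t, ht, rfl⟩
    rw [hfz, ht2] at h1
    rw [hfz] at hf2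
    have h2 := dot_le r n u hu z
    linarith
  · rintro ⟨t, ht, rfl⟩ z
    exact (zmap_dot_le r n hr hn t ht _).trans (hf_le_qf r n hr hn z)

end Pool.Agent.V1154.XC
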