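import Mathlib
import Pool.Agent.V1154.XC.Zono

/-! Perturbation estimates for Gram matrices `I + ε A`. -/

namespace Pool.Agent.V1154.XC

variable {ι : Type} [Fintype ι]

theorem int_est (x : ι → ℤ) (hx : ∃ i, ¬ (x i = 0 ∨ x i = 1)) :
    2 ≤ ∑ i, (((x i : ℝ)) ^ 2 - x i) ∧
    ∑ i, ((x i : ℝ)) ^ 2 ≤ (2 + (Fintype.card ι : ℝ) / 2) * ∑ i, (((x i : ℝ)) ^ 2 - x i) := by
  classical
  obtain ⟨i0, hi0⟩ := hx
  have hnn : ∀ i, 0 ≤ ((x i : ℝ)) ^ 2 - x i := by
    intro i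
    have : 0 ≤ x i ^ 2 - x i := by
      rcases le_total (x i) 0 with h | h
      · nlinarith
      · rcases Nat.eq_zero_or_pos (x i).toNat with h0 | h0
        · have : x i = 0 := by omega
          simp [this]
        · have : 1 ≤ x i := by omega
          nlinarith
    exact_mod_cast this
  have h2 : 2 ≤ ((x i0 : ℝ)) ^ 2 - x i0 := by
    have : 2 ≤ x i0 ^ 2 - x i0 := by
      push Not at hi0
      rcases lt_or_ge (x i0) 0 with h | h
      · nlinarith
      · have : 2 ≤ x i0 := by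
          have h1 := hi0.1
          have h2 := hi0.2
          omega
        nlinarith
    exact_mod_cast this
  have hS : 2 ≤ ∑ i, (((x i : ℝ)) ^ 2 - x i) :=
    h2.trans (Finset.single_le_sum (f := fun i => ((x i : ℝ)) ^ 2 - x i)
      (fun i _ => hnn i) (Finset.mem_univ i0))
  refine ⟨hS, ?_⟩
  have hT : ∑ i, ((x i : ℝ)) ^ 2 ≤ 2 * ∑ i, (((x i : ℝ)) ^ 2 - x i) + Fintype.card ι := by
    have hc : (Fintype.card ι : ℝ) = ∑ _i : ι, (1 : ℝ) := by simp
    rw [hc, Finset.mul_sum, ← Finset.sum_add_distrib]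
    refine Finset.sum_le_sum fun i _ => ?_
    nlinarith [sq_nonneg ((x i : ℝ) - 1)]
  have hd : (0 : ℝ) ≤ Fintype.card ι := Nat.cast_nonneg _
  nlinarith

theorem quad_abs_le (Q : ι → ι → ℝ) (C : ℝ) (hQ : ∀ i j, |Q i j| ≤ C) (v : ι → ℝ) :
    |∑ i, ∑ j, Q i j * v i * v j| ≤ C * (Fintype.card ι * ∑ i, v i ^ 2) := by
  have h1 : |∑ i, ∑ j, Q i j * v i * v j| ≤ ∑ i, ∑ j, C * (|v i| * |v j|) := by
    refine (Finset.abs_sum_le_sum_abs _ _).trans (Finset.sum_le_sum fun i _ => ?_)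
    refine (Finset.abs_sum_le_sum_abs _ _).trans (Finset.sum_le_sum fun j _ => ?_)
    rw [abs_mul, abs_mul, mul_assoc]
    exact mul_le_mul_of_nonneg_right (hQ i j) (by positivity)
  have h2 : ∑ i, ∑ j, C * (|v i| * |v j|) = C * (∑ i, |v i|) ^ 2 := by
    rw [sq, Finset.sum_mul_sum, Finset.mul_sum]
    exact Finset.sum_congr rfl fun i _ => by rw [Finset.mul_sum]
  rcases isEmpty_or_nonempty ι with he | ⟨⟨i⟩⟩
  · simp
  have hC : 0 ≤ C := (abs_nonneg _).trans (hQ i i)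
  have h3 : (∑ i, |v i|) ^ 2 ≤ Fintype.card ι * ∑ i, v i ^ 2 := by
    have := sq_sum_le_card_mul_sum_sq (s := Finset.univ) (f := fun i => |v i|)
    simpa using this
  rw [h2] at h1
  exact h1.trans (mul_le_mul_of_nonneg_left h3 hC)

theorem perturb (Q : ι → ι → ℝ) (L : ι → ℝ) (C ε : ℝ) (hQ : ∀ i j, |Q i j| ≤ C)
    (hL : ∀ i, |L i| ≤ C) (hε : 0 ≤ ε)
    (hε2 : ε * C * ((Fintype.card ι + 2) * (Fintype.card ι + 4)) ≤ 2) (x : ι → ℤ)
    (hx : ∃ i, ¬ (x i = 0 ∨ x i = 1)) :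
    0 ≤ (1 / 2) * ∑ i, (((x i : ℝ)) ^ 2 - x i)
      + ε * ((1 / 2) * ∑ i, ∑ j, Q i j * x i * x j + ∑ i, L i * x i) := by
  obtain ⟨h1, h2⟩ := int_est x hx
  obtain ⟨i0, -⟩ := hx
  have hC : 0 ≤ C := (abs_nonneg _).trans (hL i0)
  set S := ∑ i, (((x i : ℝ)) ^ 2 - x i) with hS
  set T := ∑ i, ((x i : ℝ)) ^ 2 with hT
  set D : ℝ := (Fintype.card ι : ℝ) with hD
  have hD0 : 0 ≤ D := Nat.cast_nonneg _
  have h3 := quad_abs_le Q C hQ (fun i => (x i : ℝ))
  have h4 : |∑ i, L i * (x i : ℝ)| ≤ C * T := by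
    refine (Finset.abs_sum_le_sum_abs _ _).trans ?_
    rw [hT, Finset.mul_sum]
    refine Finset.sum_le_sum fun i _ => ?_
    rw [abs_mul]
    exact mul_le_mul (hL i) (abs_le_sq_int _) (abs_nonneg _) hC
  have h5 := (abs_le.1 h3).1
  have h6 := (abs_le.1 h4).1
  have hT0 : 0 ≤ T := Finset.sum_nonneg fun i _ => sq_nonneg _
  have h7 : -(C * (D / 2 + 1) * T) ≤ (1 / 2) * ∑ i, ∑ j, Q i j * x i * x j
      + ∑ i, L i * (x i : ℝ) := by
    have : C * (D / 2 + 1) * T = (1 / 2) * (C * (D * T)) + C * T := by ring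
    rw [this]
    simp only [← hT, ← hD] at h5
    linarith
  have h8 : ε * (-(C * (D / 2 + 1) * T)) ≤ ε * ((1 / 2) * ∑ i, ∑ j, Q i j * x i * x j
      + ∑ i, L i * (x i : ℝ)) := mul_le_mul_of_nonneg_left h7 hε
  have h9 : ε * (C * (D / 2 + 1) * T) ≤ (1 / 2) * S := by
    have hc : 0 ≤ ε * C * (D / 2 + 1) := by positivity
    calc ε * (C * (D / 2 + 1) * T) = (ε * C * (D / 2 + 1)) * T := by ring
      _ ≤ (ε * C * (D / 2 + 1)) * ((2 + D / 2) * S) := mul_le_mul_of_nonneg_left h2 hc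
      _ = (ε * C * ((D + 2) * (D + 4))) * (S / 4) := by ring
      _ ≤ 2 * (S / 4) := mul_le_mul_of_nonneg_right hε2 (by linarith)
      _ = (1 / 2) * S := by ring
  linarith

/-- the form `zᵀ (I + ε A) z` -/
def gq (A : ι → ι → ℝ) (ε : ℝ) (z : ι → ℝ) : ℝ :=
  ∑ i, z i ^ 2 + ε * ∑ i, ∑ j, A i j * z i * z j

theorem finite_det [DecidableEq ι] (A : ι → ι → ℝ) (C ε : ℝ) (hA : ∀ i j, |A i j| ≤ C)
    (hdiag : ∀ i, A i i = 0) (hC : 0 ≤ C)
    (hε : 0 ≤ ε) (hε2 : ε * C * ((Fintype.card ι + 2) * (Fintype.card ι + 4)) ≤ 2)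
    (u : ι → ℝ)
    (hu : ∀ z : ι → ℤ, (∀ i, |z i| ≤ 1) →
      ∑ i, u i * (z i : ℝ) ≤ (1 / 2) * gq A ε (fun i => (z i : ℝ))) :
    ∀ z : ι → ℤ, ∑ i, u i * (z i : ℝ) ≤ (1 / 2) * gq A ε (fun i => (z i : ℝ)) := by
  intro z
  by_cases hz : ∀ i, |z i| ≤ 1
  · exact hu z hz
  push Not at hz
  have hub : ∀ i, |u i| ≤ 1 / 2 := by
    intro i
    have key : ∀ s : ℤ, s = 1 ∨ s = -1 → u i * (s : ℝ) ≤ 1 / 2 := by
      intro s hs
      have h1 := hu (fun j => if j = i then s else 0) (by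
        intro j
        split_ifs
        · rcases hs with h | h <;> simp [h]
        · simp)
      have h2 : ∑ j, u j * ((if j = i then s else 0 : ℤ) : ℝ) = u i * (s : ℝ) := by
        simp
      have h3 : gq A ε (fun j => ((if j = i then s else 0 : ℤ) : ℝ)) = 1 := by
        unfold gq
        have e1 : ∑ j, (((if j = i then s else 0 : ℤ) : ℝ)) ^ 2 = 1 := by
          rcases hs with h | h <;> simp [h]
        have e2 : ∑ j, ∑ k, A j k * (((if j = i then s else 0 : ℤ) : ℝ))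
            * (((if k = i then s else 0 : ℤ) : ℝ)) = 0 := by
          refine Finset.sum_eq_zero fun j _ => Finset.sum_eq_zero fun k _ => ?_
          by_cases hj : j = i
          · by_cases hk : k = i
            · rw [hj, hk, hdiag]
              simp
            · simp [hk]
          · simp [hj]
        rw [e1, e2]
        simp
      rw [h2, h3] at h1
      linarith
    have k1 := key 1 (Or.inl rfl)
    have k2 := key (-1) (Or.inr rfl)
    push_cast at k1 k2
    rw [abs_le]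
    constructor <;> linarith
  -- compare with `|z|`
  let sg : ι → ℝ := fun i => if 0 ≤ z i then 1 else -1
  have hsg : ∀ i, (z i : ℝ) = sg i * ((|z i| : ℤ) : ℝ) := by
    intro i
    simp only [sg]
    split_ifs with h
    · rw [abs_of_nonneg h, one_mul]
    · rw [abs_of_neg (not_le.1 h)]
      push_cast
      ring
  have hsga : ∀ i, |sg i| = 1 := by
    intro i
    simp only [sg]
    split_ifs <;> simp
  have hp := perturb (fun i j => A i j * (sg i * sg j)) (fun _ => 0) C ε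
    (fun i j => by rw [abs_mul, abs_mul, hsga, hsga]; simpa using hA i j)
    (fun i => by simpa using hC) hε hε2 (fun i => |z i|) (by
      obtain ⟨i, hi⟩ := hz
      refine ⟨i, ?_⟩
      rintro (h | h) <;> omega)
  have h1 : ∑ i, u i * (z i : ℝ) ≤ (1 / 2) * ∑ i, ((|z i| : ℤ) : ℝ) := by
    rw [Finset.mul_sum]
    refine Finset.sum_le_sum fun i _ => ?_
    calc u i * (z i : ℝ) ≤ |u i * (z i : ℝ)| := le_abs_self _
      _ = |u i| * |(z i : ℝ)| := abs_mul _ _
      _ ≤ (1 / 2) * |(z i : ℝ)| := mul_le_mul_of_nonneg_right (hub i) (abs_nonneg _)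
      _ = (1 / 2) * ((|z i| : ℤ) : ℝ) := by push_cast; rfl
  have h2 : gq A ε (fun i => (z i : ℝ)) = ∑ i, (((|z i| : ℤ) : ℝ)) ^ 2
      + ε * ∑ i, ∑ j, A i j * (sg i * sg j) * ((|z i| : ℤ) : ℝ) * ((|z j| : ℤ) : ℝ) := by
    unfold gq
    congr 1
    · refine Finset.sum_congr rfl fun i _ => ?_
      push_cast
      rw [sq_abs]
    · congr 1
      refine Finset.sum_congr rfl fun i _ => Finset.sum_congr rfl fun j _ => ?_
      show A i j * (z i : ℝ) * (z j : ℝ) = _
      rw [hsg i, hsg j]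
      ring
  rw [h2]
  rw [Finset.sum_sub_distrib] at hp
  simp only [zero_mul, Finset.sum_const_zero, add_zero] at hp
  linarith

/-- Entries of the inverse of `I + ε A`. -/
theorem inverse_signs [DecidableEq ι] (A N : Matrix ι ι ℝ) (C α ε : ℝ) (hA : ∀ i j, |A i j| ≤ C)
    (hα : ∀ i j, i ≠ j → α ≤ A i j) (hε : 0 < ε) (hC : 0 ≤ C)
    (h1 : ε * C * Fintype.card ι ≤ 1 / 2)
    (h2 : ε * (2 * C ^ 2 * (Fintype.card ι) ^ 2) ≤ α)
    (h3 : ε * (2 * C * (Fintype.card ι) ^ 2) ≤ 1)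
    (hN : N * (1 + ε • A) = 1) :
    (∀ i j, i ≠ j → N i j ≤ 0) ∧ ∀ i, 0 ≤ ∑ j, N i j := by
  set D : ℝ := (Fintype.card ι : ℝ) with hD
  have hD0 : 0 ≤ D := Nat.cast_nonneg _
  have hN1 : N = 1 - ε • (N * A) := by
    rw [mul_add, mul_one, mul_smul_comm] at hN
    rw [← hN]
    abel
  have hsum : ∀ (X Y : Matrix ι ι ℝ) (c e : ℝ), 0 ≤ c → (∀ i j, |X i j| ≤ c) →
      (∀ i j, |Y i j| ≤ e) → ∀ i j, |(X * Y) i j| ≤ c * e * D := by
    intro X Y c e hc hX hY i j
    rw [Matrix.mul_apply]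
    refine (Finset.abs_sum_le_sum_abs _ _).trans ?_
    have : ∑ k, |X i k * Y k j| ≤ ∑ _k : ι, c * e := by
      refine Finset.sum_le_sum fun k _ => ?_
      rw [abs_mul]
      exact mul_le_mul (hX i k) (hY k j) (abs_nonneg _) hc
    refine this.trans (le_of_eq ?_)
    simp [hD]
    ring
  -- bound the entries of `N` by 2
  have hNb : ∀ i j, |N i j| ≤ 2 := by
    rcases isEmpty_or_nonempty ι with he | hne
    · intro i
      exact (he.false i).elim
    obtain ⟨p, -, hp⟩ := (Finset.univ : Finset (ι × ι)).exists_max_image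
      (fun p => |N p.1 p.2|) Finset.univ_nonempty
    have hp' : ∀ i j, |N i j| ≤ |N p.1 p.2| := fun i j => hp (i, j) (Finset.mem_univ _)
    set μ := |N p.1 p.2| with hμ
    have hμ0 : 0 ≤ μ := abs_nonneg _
    have h4 := hsum N A μ C hμ0 hp' hA p.1 p.2
    have h5 : N p.1 p.2 = (1 : Matrix ι ι ℝ) p.1 p.2 - ε * (N * A) p.1 p.2 := by
      conv_lhs => rw [hN1]
      simp
    have h5' : μ = |(1 : Matrix ι ι ℝ) p.1 p.2 - ε * (N * A) p.1 p.2| := by
      rw [hμ, ← h5]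
    have h6 : μ ≤ 1 + ε * (μ * C * D) := by
      refine (le_of_eq h5').trans ?_
      refine (abs_sub _ _).trans (add_le_add ?_ ?_)
      · rw [Matrix.one_apply]
        split_ifs <;> simp
      · rw [abs_mul, abs_of_pos hε]
        exact mul_le_mul_of_nonneg_left h4 hε.le
    have h7 : ε * (μ * C * D) ≤ μ * (1 / 2) := by
      have := mul_le_mul_of_nonneg_left h1 hμ0
      linarith [this, show ε * (μ * C * D) = μ * (ε * C * D) by ring]
    intro i j
    have := hp' i j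
    linarith
  have hNA : ∀ i j, |(N * A) i j| ≤ 2 * C * D := hsum N A 2 C (by norm_num) hNb hA
  have hNAA : ∀ i j, |(N * A * A) i j| ≤ (2 * C * D) * C * D :=
    hsum (N * A) A (2 * C * D) C (by positivity) hNA hA
  constructor
  · intro i j hij
    have hN2 : N = 1 - ε • A + ε ^ 2 • (N * A * A) := by
      conv_lhs => rw [hN1, hN1]
      rw [sub_mul, one_mul, smul_mul_assoc, smul_sub, smul_smul]
      rw [sq]
      abel
    have h5 : N i j = - (ε * A i j) + ε ^ 2 * (N * A * A) i j := by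
      conv_lhs => rw [hN2]
      simp [Matrix.one_apply_ne hij]
    rw [h5]
    have h6 := (abs_le.1 (hNAA i j)).2
    have h7 := hα i j hij
    have h8 : ε ^ 2 * (N * A * A) i j ≤ ε * (ε * (2 * C ^ 2 * D ^ 2)) := by
      have := mul_le_mul_of_nonneg_left h6 (sq_nonneg ε)
      refine this.trans (le_of_eq ?_)
      ring
    have h9 := mul_le_mul_of_nonneg_left h2 hε.le
    have h10 := mul_le_mul_of_nonneg_left h7 hε.le
    linarith
  · intro i
    have h5 : ∀ j, N i j = (1 : Matrix ι ι ℝ) i j - ε * (N * A) i j := by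
      intro j
      conv_lhs => rw [hN1]
      simp
    simp only [h5]
    rw [Finset.sum_sub_distrib]
    have h6 : ∑ j, (1 : Matrix ι ι ℝ) i j = 1 := by simp [Matrix.one_apply]
    have h7 : ∑ j, ε * (N * A) i j ≤ ε * (2 * C * D ^ 2) := by
      have : ∑ j, ε * (N * A) i j ≤ ∑ _j : ι, ε * (2 * C * D) :=
        Finset.sum_le_sum fun j _ => mul_le_mul_of_nonneg_left ((abs_le.1 (hNA i j)).2) hε.le
      refine this.trans (le_of_eq ?_)
      simp [hD]
      ring
    rw [h6]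
    linarith

end Pool.Agent.V1154.XC
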