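import Mathlib
import Pool.Agent.V1154.XC.Perturb
import Pool.Agent.V1154.XC.KW

/-! The quadratic 0/1 gadget. -/

namespace Pool.Agent.V1154.XC

/-- index set of the `b`-variables (real ones and padding) -/
abbrev Bt (m : ℕ) : Type := Fin m ⊕ Fin m

/-- all variables: `b_i`, `t`, `w_{ij}` -/
abbrev Ix (m : ℕ) : Type := Bt m ⊕ (Unit ⊕ (Bt m × Bt m))

/-- the penalty weight -/
def Mw (m : ℕ) : ℝ := 2 * m + 1

/-- the positive matrix `A` -/
def Am (m : ℕ) (η : ℝ) : Ix m → Ix m → ℝ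
  | .inl i, .inl j => if i = j then 0 else 2 * (2 + Mw m)
  | .inl _, .inr (.inl _) => 4 * m
  | .inl k, .inr (.inr p) =>
      2 * Mw m * ((if k = p.1 then 1 else 0) + (if k = p.2 then 1 else 0)) + η
  | .inr (.inl _), .inl _ => 4 * m
  | .inr (.inr p), .inl k =>
      2 * Mw m * ((if k = p.1 then 1 else 0) + (if k = p.2 then 1 else 0)) + η
  | .inr (.inl _), .inr (.inl _) => 0
  | .inr (.inl _), .inr (.inr _) => η
  | .inr (.inr _), .inr (.inl _) => η
  | .inr (.inr p), .inr (.inr q) => if p = q then 0 else η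

/-- the sign change -/
def sgn (m : ℕ) : Ix m → ℤ
  | .inl _ => 1
  | .inr _ => -1

theorem offdiag_sum {κ : Type} [Fintype κ] [DecidableEq κ] (c : ℝ) (b : κ → ℝ) :
    ∑ i, ∑ j, (if i = j then 0 else c) * b i * b j = c * ((∑ i, b i) ^ 2 - ∑ i, b i ^ 2) := by
  have h1 : ∀ i j, (if i = j then 0 else c) * b i * b j
      = c * (b i * b j) - if i = j then c * (b i * b j) else 0 := by
    intro i j
    split_ifs <;> ring
  simp only [h1, Finset.sum_sub_distrib]
  rw [sq, Finset.sum_mul_sum, mul_sub, Finset.mul_sum, Finset.mul_sum]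
  congr 1
  · exact Finset.sum_congr rfl fun i _ => by rw [Finset.mul_sum]
  · refine Finset.sum_congr rfl fun i _ => ?_
    rw [Finset.sum_ite_eq]
    simp [sq]

theorem quad_expand (m : ℕ) (η : ℝ) (v : Ix m → ℝ) :
    (1 / 2) * ∑ x, ∑ y, Am m η x y * ((sgn m x : ℝ) * (sgn m y : ℝ)) * v x * v y
      = (2 + Mw m) * ((∑ i, v (.inl i)) ^ 2 - ∑ i, v (.inl i) ^ 2)
        - 4 * m * v (.inr (.inl ())) * ∑ i, v (.inl i)
        - 2 * Mw m * ∑ p : Bt m × Bt m, (v (.inl p.1) + v (.inl p.2)) * v (.inr (.inr p))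
        - η * (∑ i, v (.inl i)) * ∑ p, v (.inr (.inr p))
        + η * v (.inr (.inl ())) * ∑ p, v (.inr (.inr p))
        + (1 / 2) * η * ((∑ p, v (.inr (.inr p))) ^ 2 - ∑ p, v (.inr (.inr p)) ^ 2) := by
  set b : Bt m → ℝ := fun i => v (.inl i) with hb
  set t : ℝ := v (.inr (.inl ())) with ht
  set w : Bt m × Bt m → ℝ := fun p => v (.inr (.inr p)) with hw
  have hbb : ∑ i, ∑ j, Am m η (.inl i) (.inl j)
      * ((sgn m (.inl i) : ℝ) * (sgn m (.inl j) : ℝ)) * v (.inl i) * v (.inl j)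
      = 2 * (2 + Mw m) * ((∑ i, b i) ^ 2 - ∑ i, b i ^ 2) := by
    rw [← offdiag_sum]
    refine Finset.sum_congr rfl fun i _ => Finset.sum_congr rfl fun j _ => ?_
    simp [Am, sgn, hb]
  have hww : ∑ i, ∑ j, Am m η (.inr (.inr i)) (.inr (.inr j))
      * ((sgn m (.inr (.inr i)) : ℝ) * (sgn m (.inr (.inr j)) : ℝ))
        * v (.inr (.inr i)) * v (.inr (.inr j))
      = η * ((∑ i, w i) ^ 2 - ∑ i, w i ^ 2) := by
    rw [← offdiag_sum]
    refine Finset.sum_congr rfl fun i _ => Finset.sum_congr rfl fun j _ => ?_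
    simp [Am, sgn, hw]
  have hbw : ∑ i, ∑ p : Bt m × Bt m, Am m η (.inl i) (.inr (.inr p))
      * ((sgn m (.inl i) : ℝ) * (sgn m (.inr (.inr p)) : ℝ)) * v (.inl i) * v (.inr (.inr p))
      = - (2 * Mw m * ∑ p : Bt m × Bt m, (b p.1 + b p.2) * w p) - η * (∑ i, b i) * ∑ p, w p := by
    rw [Finset.sum_comm]
    have : ∀ p : Bt m × Bt m, ∑ i, Am m η (.inl i) (.inr (.inr p))
      * ((sgn m (.inl i) : ℝ) * (sgn m (.inr (.inr p)) : ℝ)) * v (.inl i) * v (.inr (.inr p))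
      = - (2 * Mw m * ((b p.1 + b p.2) * w p)) - η * (∑ i, b i) * w p := by
      intro p
      have h1 : ∀ i, Am m η (.inl i) (.inr (.inr p))
          * ((sgn m (.inl i) : ℝ) * (sgn m (.inr (.inr p)) : ℝ)) * v (.inl i) * v (.inr (.inr p))
          = (if i = p.1 then - (2 * Mw m * (b i * w p)) else 0)
            + (if i = p.2 then - (2 * Mw m * (b i * w p)) else 0) + b i * (-(η * w p)) := by
        intro i
        simp only [Am, sgn, hb, hw]
        push_cast
        split_ifs <;> ring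
      simp only [h1, Finset.sum_add_distrib, Finset.sum_ite_eq', Finset.mem_univ, if_true]
      rw [← Finset.sum_mul]
      ring
    simp only [this]
    rw [Finset.sum_sub_distrib, ← Finset.mul_sum, Finset.sum_neg_distrib, ← Finset.mul_sum]
  have hwb : ∑ p : Bt m × Bt m, ∑ i, Am m η (.inr (.inr p)) (.inl i)
      * ((sgn m (.inr (.inr p)) : ℝ) * (sgn m (.inl i) : ℝ)) * v (.inr (.inr p)) * v (.inl i)
      = - (2 * Mw m * ∑ p : Bt m × Bt m, (b p.1 + b p.2) * w p) - η * (∑ i, b i) * ∑ p, w p := by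
    rw [← hbw, Finset.sum_comm]
    refine Finset.sum_congr rfl fun i _ => Finset.sum_congr rfl fun p _ => ?_
    simp only [Am]
    ring
  have hbt : ∑ i, Am m η (.inl i) (.inr (.inl ()))
      * ((sgn m (.inl i) : ℝ) * (sgn m (.inr (.inl ())) : ℝ)) * v (.inl i) * v (.inr (.inl ()))
      = - (4 * m * t * ∑ i, b i) := by
    rw [Finset.mul_sum, ← Finset.sum_neg_distrib]
    refine Finset.sum_congr rfl fun i _ => ?_
    simp only [Am, sgn, hb, ht]
    push_cast
    ring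
  have htb : ∑ i, Am m η (.inr (.inl ())) (.inl i)
      * ((sgn m (.inr (.inl ())) : ℝ) * (sgn m (.inl i) : ℝ)) * v (.inr (.inl ())) * v (.inl i)
      = - (4 * m * t * ∑ i, b i) := by
    rw [← hbt]
    refine Finset.sum_congr rfl fun i _ => ?_
    simp only [Am]
    ring
  have htw : ∑ p : Bt m × Bt m, Am m η (.inr (.inl ())) (.inr (.inr p))
      * ((sgn m (.inr (.inl ())) : ℝ) * (sgn m (.inr (.inr p)) : ℝ)) * v (.inr (.inl ()))
        * v (.inr (.inr p)) = η * t * ∑ p, w p := by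
    rw [Finset.mul_sum]
    refine Finset.sum_congr rfl fun i _ => ?_
    simp only [Am, sgn, hw, ht]
    push_cast
    ring
  have hwt : ∑ p : Bt m × Bt m, Am m η (.inr (.inr p)) (.inr (.inl ()))
      * ((sgn m (.inr (.inr p)) : ℝ) * (sgn m (.inr (.inl ())) : ℝ)) * v (.inr (.inr p))
        * v (.inr (.inl ())) = η * t * ∑ p, w p := by
    rw [← htw]
    refine Finset.sum_congr rfl fun i _ => ?_
    simp only [Am]
    ring
  have htt : Am m η (.inr (.inl ())) (.inr (.inl ())) = 0 := rfl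
  simp only [Fintype.sum_sum_type (α₁ := Bt m) (α₂ := Unit ⊕ (Bt m × Bt m)),
    Fintype.sum_sum_type (α₁ := Unit) (α₂ := Bt m × Bt m), Finset.sum_add_distrib,
    Finset.univ_unique, Finset.sum_singleton, PUnit.default_eq_unit]
  rw [hbb, hww, hbw, hwb, hbt, htb, htw, hwt, htt]
  ring

/-- vector `a` extended by zero on the padding -/
def av {m : ℕ} (α : Fin m → Bool) : Bt m → ℝ
  | .inl i => if α i = true then 1 else 0
  | .inr _ => 0

/-- the constant `g` -/
noncomputable def gc (m : ℕ) : ℝ := (1 / 2) * ((m : ℝ) ^ 4 - (m : ℝ) ^ 2) + (m : ℝ) ^ 2 - (m : ℝ) ^ 3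

/-- linear part -/
noncomputable def La {m : ℕ} (η : ℝ) (α : Fin m → Bool) : Ix m → ℝ
  | .inl i => -2 * av α i + 2 + Mw m
  | .inr (.inl _) => 1 + 2 * (m : ℝ) ^ 2 - η * gc m
  | .inr (.inr p) => av α p.1 * av α p.2 + 3 * Mw m

/-- the nonnegative 0/1 function -/
noncomputable def fa {m : ℕ} (η : ℝ) (α : Fin m → Bool) (v : Ix m → ℝ) : ℝ :=
  v (.inr (.inl ())) - 2 * ∑ i, av α i * v (.inl i)
    + ∑ p : Bt m × Bt m, av α p.1 * av α p.2 * v (.inr (.inr p))
    + 2 * (∑ i, v (.inl i) - m * v (.inr (.inl ()))) ^ 2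
    + Mw m * ∑ p : Bt m × Bt m, (v (.inl p.1) * v (.inl p.2)
        - 2 * (v (.inl p.1) + v (.inl p.2)) * v (.inr (.inr p)) + 3 * v (.inr (.inr p)))
    + η * ((1 / 2) * ((∑ p, v (.inr (.inr p))) ^ 2 - ∑ p, v (.inr (.inr p)))
        + v (.inr (.inl ())) * ∑ p, v (.inr (.inr p))
        - (∑ i, v (.inl i)) * ∑ p, v (.inr (.inr p)) - gc m * v (.inr (.inl ())))

theorem fa_eq {m : ℕ} (η : ℝ) (α : Fin m → Bool) (v : Ix m → ℝ) (hv : ∀ x, v x ^ 2 = v x) :
    (1 / 2) * ∑ x, ∑ y, Am m η x y * ((sgn m x : ℝ) * (sgn m y : ℝ)) * v x * v y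
      + ∑ x, La η α x * v x = fa η α v := by
  rw [quad_expand]
  have h1 : ∑ x, La η α x * v x = -2 * (∑ i, av α i * v (.inl i))
      + (2 + Mw m) * (∑ i, v (.inl i)) + (1 + 2 * (m : ℝ) ^ 2 - η * gc m) * v (.inr (.inl ()))
      + (∑ p : Bt m × Bt m, av α p.1 * av α p.2 * v (.inr (.inr p))
        + 3 * Mw m * ∑ p : Bt m × Bt m, v (.inr (.inr p))) := by
    simp only [Fintype.sum_sum_type (α₁ := Bt m) (α₂ := Unit ⊕ (Bt m × Bt m)),
      Fintype.sum_sum_type (α₁ := Unit) (α₂ := Bt m × Bt m),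
      Finset.univ_unique, Finset.sum_singleton, PUnit.default_eq_unit]
    have e1 : ∑ i : Bt m, La η α (.inl i) * v (.inl i)
        = -2 * (∑ i, av α i * v (.inl i)) + (2 + Mw m) * (∑ i, v (.inl i)) := by
      rw [Finset.mul_sum, Finset.mul_sum, ← Finset.sum_add_distrib]
      refine Finset.sum_congr rfl fun i _ => ?_
      simp only [La]
      ring
    have e2 : ∑ p : Bt m × Bt m, La η α (.inr (.inr p)) * v (.inr (.inr p))
        = ∑ p : Bt m × Bt m, av α p.1 * av α p.2 * v (.inr (.inr p))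
        + 3 * Mw m * ∑ p : Bt m × Bt m, v (.inr (.inr p)) := by
      rw [Finset.mul_sum, ← Finset.sum_add_distrib]
      refine Finset.sum_congr rfl fun i _ => ?_
      simp only [La]
      ring
    rw [e1, e2]
    simp only [La]
    ring
  rw [h1]
  have h2 : ∑ p : Bt m × Bt m, (v (.inl p.1) * v (.inl p.2)
        - 2 * (v (.inl p.1) + v (.inl p.2)) * v (.inr (.inr p)) + 3 * v (.inr (.inr p)))
      = (∑ i, v (.inl i)) ^ 2
        - 2 * ∑ p : Bt m × Bt m, (v (.inl p.1) + v (.inl p.2)) * v (.inr (.inr p))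
        + 3 * ∑ p : Bt m × Bt m, v (.inr (.inr p)) := by
    rw [Finset.sum_add_distrib, Finset.sum_sub_distrib]
    congr 1
    · congr 1
      · rw [sq, Finset.sum_mul_sum, Fintype.sum_prod_type]
      · rw [Finset.mul_sum]
        exact Finset.sum_congr rfl fun p _ => by ring
    · rw [Finset.mul_sum]
  unfold fa
  rw [h2]
  have h3 : ∑ i : Bt m, v (.inl i) ^ 2 = ∑ i : Bt m, v (.inl i) :=
    Finset.sum_congr rfl fun i _ => hv _
  have h4 : ∑ p : Bt m × Bt m, v (.inr (.inr p)) ^ 2 = ∑ p : Bt m × Bt m, v (.inr (.inr p)) :=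
    Finset.sum_congr rfl fun i _ => hv _
  have h5 : v (.inr (.inl ())) ^ 2 = v (.inr (.inl ())) := hv _
  rw [h3, h4]
  linear_combination (-2 * (m : ℝ) ^ 2) * h5

theorem av_bounds {m : ℕ} (α : Fin m → Bool) (i : Bt m) : 0 ≤ av α i ∧ av α i ≤ 1 := by
  rcases i with i | i
  · simp only [av]
    split_ifs <;> norm_num
  · simp [av]

/-- value on consistent vectors -/
theorem fa_cons {m : ℕ} (η : ℝ) (α : Fin m → Bool) (v : Ix m → ℝ) (hv : ∀ x, v x ^ 2 = v x)
    (hw : ∀ p : Bt m × Bt m, v (.inr (.inr p)) = v (.inl p.1) * v (.inl p.2)) :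
    fa η α v = v (.inr (.inl ())) - 2 * (∑ i, av α i * v (.inl i))
      + (∑ i, av α i * v (.inl i)) ^ 2
      + 2 * (∑ i, v (.inl i) - m * v (.inr (.inl ()))) ^ 2
      + η * ((1 / 2) * ((∑ i, v (.inl i)) ^ 4 - (∑ i, v (.inl i)) ^ 2)
        + v (.inr (.inl ())) * (∑ i, v (.inl i)) ^ 2
        - (∑ i, v (.inl i)) ^ 3 - gc m * v (.inr (.inl ()))) := by
  have h1 : ∑ p : Bt m × Bt m, v (.inr (.inr p)) = (∑ i, v (.inl i)) ^ 2 := by
    rw [sq, Finset.sum_mul_sum, Fintype.sum_prod_type]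
    exact Finset.sum_congr rfl fun i _ => Finset.sum_congr rfl fun j _ => hw (i, j)
  have h2 : ∑ p : Bt m × Bt m, av α p.1 * av α p.2 * v (.inr (.inr p))
      = (∑ i, av α i * v (.inl i)) ^ 2 := by
    rw [sq, Finset.sum_mul_sum, Fintype.sum_prod_type]
    refine Finset.sum_congr rfl fun i _ => Finset.sum_congr rfl fun j _ => ?_
    rw [hw (i, j)]
    ring
  have h3 : ∑ p : Bt m × Bt m, (v (.inl p.1) * v (.inl p.2)
        - 2 * (v (.inl p.1) + v (.inl p.2)) * v (.inr (.inr p)) + 3 * v (.inr (.inr p))) = 0 := by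
    refine Finset.sum_eq_zero fun p _ => ?_
    rw [hw p]
    linear_combination (-2 * v (.inl p.2)) * hv (.inl p.1) + (-2 * v (.inl p.1)) * hv (.inl p.2)
  unfold fa
  rw [h1, h2, h3]
  ring

theorem eta_bound {m : ℕ} (hm : 1 ≤ m) (s W t : ℝ) (hs0 : 0 ≤ s) (hs : s ≤ 2 * m)
    (hW0 : 0 ≤ W) (hW : W ≤ 4 * (m : ℝ) ^ 2) (ht0 : 0 ≤ t) (ht1 : t ≤ 1) :
    |(1 / (44 * (m : ℝ) ^ 4)) * ((1 / 2) * (W ^ 2 - W) + t * W - s * W - gc m * t)| ≤ 1 := by
  have hm1 : (1 : ℝ) ≤ m := by exact_mod_cast hm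
  have hm2 : (m : ℝ) ^ 2 ≤ (m : ℝ) ^ 4 := pow_le_pow_right₀ hm1 (by norm_num)
  have hm3 : (m : ℝ) ^ 3 ≤ (m : ℝ) ^ 4 := pow_le_pow_right₀ hm1 (by norm_num)
  have hm4 : (1 : ℝ) ≤ (m : ℝ) ^ 4 := one_le_pow₀ hm1
  have hm20 : (0 : ℝ) ≤ (m : ℝ) ^ 2 := by positivity
  have hm30 : (0 : ℝ) ≤ (m : ℝ) ^ 3 := by positivity
  have hW2 : W ^ 2 ≤ 16 * (m : ℝ) ^ 4 := by
    have := mul_le_mul hW hW hW0 (by positivity)
    nlinarith
  have hsW : s * W ≤ 8 * (m : ℝ) ^ 3 := by
    have := mul_le_mul hs hW hW0 (by positivity)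
    nlinarith
  have hsW0 : 0 ≤ s * W := mul_nonneg hs0 hW0
  have htW : t * W ≤ W := by nlinarith
  have htW0 : 0 ≤ t * W := mul_nonneg ht0 hW0
  have hg1 : gc m ≤ (m : ℝ) ^ 4 := by unfold gc; linarith
  have hg2 : -(m : ℝ) ^ 4 ≤ gc m := by unfold gc; linarith
  have hgt1 : gc m * t ≤ (m : ℝ) ^ 4 := by nlinarith
  have hgt2 : -(m : ℝ) ^ 4 ≤ gc m * t := by nlinarith
  have hW2' : 0 ≤ W ^ 2 := sq_nonneg _
  have hb : |(1 / 2) * (W ^ 2 - W) + t * W - s * W - gc m * t| ≤ 44 * (m : ℝ) ^ 4 := by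
    rw [abs_le]
    constructor <;> linarith
  rw [abs_mul, abs_of_pos (by positivity)]
  calc (1 / (44 * (m : ℝ) ^ 4)) * |(1 / 2) * (W ^ 2 - W) + t * W - s * W - gc m * t|
      ≤ (1 / (44 * (m : ℝ) ^ 4)) * (44 * (m : ℝ) ^ 4) :=
        mul_le_mul_of_nonneg_left hb (by positivity)
    _ = 1 := by
        have : (m : ℝ) ≠ 0 := by positivity
        field_simp

theorem fa_nonneg {m : ℕ} (hm : 1 ≤ m) (α : Fin m → Bool) (z : Ix m → ℤ)
    (hz : ∀ x, z x = 0 ∨ z x = 1) :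
    0 ≤ fa (1 / (44 * (m : ℝ) ^ 4)) α (fun x => (z x : ℝ)) := by
  set v : Ix m → ℝ := fun x => (z x : ℝ) with hvdef
  have hv01 : ∀ x, v x = 0 ∨ v x = 1 := by
    intro x
    rcases hz x with h | h
    · left
      simp [hvdef, h]
    · right
      simp [hvdef, h]
  have hv2 : ∀ x, v x ^ 2 = v x := by
    intro x
    rcases hv01 x with h | h <;> rw [h] <;> norm_num
  have hv0 : ∀ x, 0 ≤ v x := fun x => by rw [← hv2 x]; exact sq_nonneg _
  have hv1 : ∀ x, v x ≤ 1 := fun x => by rcases hv01 x with h | h <;> rw [h] <;> norm_num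
  have hm1 : (1 : ℝ) ≤ m := by exact_mod_cast hm
  set s := ∑ i, v (.inl i) with hs
  set t := v (.inr (.inl ())) with ht
  set W := ∑ p : Bt m × Bt m, v (.inr (.inr p)) with hW
  set σ := ∑ i, av α i * v (.inl i) with hσ
  have hs0 : 0 ≤ s := Finset.sum_nonneg fun i _ => hv0 _
  have hs1 : s ≤ 2 * m := by
    have : s ≤ ∑ _i : Bt m, (1 : ℝ) := Finset.sum_le_sum fun i _ => hv1 _
    refine this.trans (le_of_eq ?_)
    simp
    ring
  have hW0 : 0 ≤ W := Finset.sum_nonneg fun i _ => hv0 _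
  have hW1 : W ≤ 4 * (m : ℝ) ^ 2 := by
    have : W ≤ ∑ _p : Bt m × Bt m, (1 : ℝ) := Finset.sum_le_sum fun i _ => hv1 _
    refine this.trans (le_of_eq ?_)
    simp
    ring
  have hη := eta_bound hm s W t hs0 hs1 hW0 hW1 (hv0 _) (hv1 _)
  have hσ1 : σ ≤ m := by
    rw [hσ, Fintype.sum_sum_type]
    have h1 : ∑ i : Fin m, av α (.inr i) * v (.inl (.inr i)) = 0 :=
      Finset.sum_eq_zero fun i _ => by simp [av]
    have h2 : ∑ i : Fin m, av α (.inl i) * v (.inl (.inl i)) ≤ ∑ _i : Fin m, (1 : ℝ) := by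
      refine Finset.sum_le_sum fun i _ => ?_
      exact mul_le_one₀ (av_bounds α _).2 (hv0 _) (hv1 _)
    rw [h1, add_zero]
    refine h2.trans (le_of_eq ?_)
    simp
  by_cases hcons : ∀ p : Bt m × Bt m, v (.inr (.inr p)) = v (.inl p.1) * v (.inl p.2)
  · have hWs : W = s ^ 2 := by
      rw [hW, hs, sq, Finset.sum_mul_sum, Fintype.sum_prod_type]
      exact Finset.sum_congr rfl fun i _ => Finset.sum_congr rfl fun j _ => hcons (i, j)
    rw [fa_cons _ α v hv2 hcons]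
    simp only [← hs, ← ht, ← hσ]
    have hη' := (abs_le.1 hη).1
    rw [hWs] at hη'
    have hη2 : -1 ≤ 1 / (44 * (m : ℝ) ^ 4) * ((1 / 2) * (s ^ 4 - s ^ 2) + t * s ^ 2 - s ^ 3
        - gc m * t) := by
      refine hη'.trans (le_of_eq ?_)
      ring
    obtain ⟨S, hS⟩ : ∃ S : ℤ, s = S := ⟨∑ i, z (.inl i), by rw [hs]; push_cast; rfl⟩
    rcases hv01 (.inr (.inl ())) with h0 | h0
    · -- t = 0
      have ht0 : t = 0 := h0
      rw [ht0] at hη2 ⊢
      rcases eq_or_lt_of_le hs0 with h | h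
      · have hb0 : ∀ i, v (.inl i) = 0 := by
          intro i
          exact (Finset.sum_eq_zero_iff_of_nonneg (fun i _ => hv0 (.inl i))).1 h.symm i
            (Finset.mem_univ _)
        have hσ0 : σ = 0 := by
          rw [hσ]
          exact Finset.sum_eq_zero fun i _ => by rw [hb0, mul_zero]
        rw [hσ0, ← h]
        norm_num
      · have hS1 : (1 : ℝ) ≤ s := by
          rw [hS] at h ⊢
          have : 0 < S := by exact_mod_cast h
          exact_mod_cast this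
        nlinarith [sq_nonneg (σ - 1)]
    · have ht1 : t = 1 := h0
      rw [ht1] at hη2 ⊢
      by_cases hsm : s = m
      · rw [hsm]
        have : 1 / (44 * (m : ℝ) ^ 4) * ((1 / 2) * ((m : ℝ) ^ 4 - (m : ℝ) ^ 2)
            + 1 * (m : ℝ) ^ 2 - (m : ℝ) ^ 3 - gc m * 1) = 0 := by
          unfold gc
          ring
        rw [this]
        nlinarith [sq_nonneg (σ - 1)]
      · have h2 : 1 ≤ (s - m * 1) ^ 2 := by
          rw [hS, mul_one]
          have h3 : S - (m : ℤ) ≠ 0 := by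
            intro h4
            apply hsm
            rw [hS]
            have : S = (m : ℤ) := by omega
            rw [this]
            simp
          have h4 : 1 ≤ (S - (m : ℤ)) ^ 2 := by
            have := sq_pos_of_ne_zero h3
            omega
          exact_mod_cast h4
        nlinarith [sq_nonneg (σ - 1)]
  · push Not at hcons
    obtain ⟨p0, hp0⟩ := hcons
    have hpen0 : ∀ p : Bt m × Bt m, 0 ≤ v (.inl p.1) * v (.inl p.2)
        - 2 * (v (.inl p.1) + v (.inl p.2)) * v (.inr (.inr p)) + 3 * v (.inr (.inr p)) := by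
      intro p
      rcases hv01 (.inl p.1) with h1 | h1 <;> rcases hv01 (.inl p.2) with h2 | h2 <;>
        rcases hv01 (.inr (.inr p)) with h3 | h3 <;> rw [h1, h2, h3] <;> norm_num
    have hpen1 : 1 ≤ v (.inl p0.1) * v (.inl p0.2)
        - 2 * (v (.inl p0.1) + v (.inl p0.2)) * v (.inr (.inr p0)) + 3 * v (.inr (.inr p0)) := by
      rcases hv01 (.inl p0.1) with h1 | h1 <;> rcases hv01 (.inl p0.2) with h2 | h2 <;>
        rcases hv01 (.inr (.inr p0)) with h3 | h3 <;>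
        first
          | (exfalso; apply hp0; rw [h1, h2, h3]; norm_num; done)
          | (rw [h1, h2, h3]; norm_num; done)
    have hpen : 1 ≤ ∑ p : Bt m × Bt m, (v (.inl p.1) * v (.inl p.2)
        - 2 * (v (.inl p.1) + v (.inl p.2)) * v (.inr (.inr p)) + 3 * v (.inr (.inr p))) :=
      hpen1.trans (Finset.single_le_sum (f := fun p : Bt m × Bt m => v (.inl p.1) * v (.inl p.2)
        - 2 * (v (.inl p.1) + v (.inl p.2)) * v (.inr (.inr p)) + 3 * v (.inr (.inr p)))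
        (fun p _ => hpen0 p) (Finset.mem_univ p0))
    have haw : 0 ≤ ∑ p : Bt m × Bt m, av α p.1 * av α p.2 * v (.inr (.inr p)) :=
      Finset.sum_nonneg fun p _ =>
        mul_nonneg (mul_nonneg (av_bounds α _).1 (av_bounds α _).1) (hv0 _)
    have hη' := (abs_le.1 hη).1
    have hMpos : (0 : ℝ) ≤ Mw m := by unfold Mw; positivity
    have hMpen := mul_le_mul_of_nonneg_left hpen hMpos
    have hsq : 0 ≤ (s - m * t) ^ 2 := sq_nonneg _
    have ht0 : 0 ≤ t := hv0 _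
    unfold fa
    simp only [← hs, ← ht, ← hσ, ← hW]
    have hM : Mw m = 2 * m + 1 := rfl
    linarith

/-- the padded set -/
def bh {m : ℕ} (β : Fin m → Bool) : Bt m → ℤ
  | .inl i => if β i = true then 1 else 0
  | .inr i => if β i = true then 0 else 1

/-- the 0/1 vector of `β` -/
def vb {m : ℕ} (β : Fin m → Bool) : Ix m → ℤ
  | .inl i => bh β i
  | .inr (.inl _) => 1
  | .inr (.inr p) => bh β p.1 * bh β p.2

theorem bh_01 {m : ℕ} (β : Fin m → Bool) (i : Bt m) : bh β i = 0 ∨ bh β i = 1 := by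
  rcases i with i | i
  · simp only [bh]
    split_ifs <;> simp
  · simp only [bh]
    split_ifs <;> simp

theorem vb_01 {m : ℕ} (β : Fin m → Bool) (x : Ix m) : vb β x = 0 ∨ vb β x = 1 := by
  rcases x with i | i | p
  · exact bh_01 β i
  · right
    rfl
  · rcases bh_01 β p.1 with h | h <;> rcases bh_01 β p.2 with h' | h' <;> simp [vb, h, h']

theorem fa_val {m : ℕ} (η : ℝ) (α β : Fin m → Bool) :
    fa η α (fun x => (vb β x : ℝ)) = (1 - (meet α β : ℝ)) ^ 2 := by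
  have hv2 : ∀ x, ((vb β x : ℤ) : ℝ) ^ 2 = ((vb β x : ℤ) : ℝ) := by
    intro x
    rcases vb_01 β x with h | h <;> rw [h] <;> norm_num
  rw [fa_cons η α _ hv2 (fun p => by simp [vb])]
  have hs : ∑ i, ((vb β (.inl i) : ℤ) : ℝ) = m := by
    rw [Fintype.sum_sum_type, ← Finset.sum_add_distrib]
    have : ∀ i : Fin m, ((vb β (.inl (.inl i)) : ℤ) : ℝ) + ((vb β (.inl (.inr i)) : ℤ) : ℝ) = 1 := by
      intro i
      simp only [vb, bh]
      split_ifs <;> norm_num
    simp [this]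
  have hσ : ∑ i, av α i * ((vb β (.inl i) : ℤ) : ℝ) = (meet α β : ℝ) := by
    rw [Fintype.sum_sum_type, meet]
    have h1 : ∑ i : Fin m, av α (.inr i) * ((vb β (.inl (.inr i)) : ℤ) : ℝ) = 0 :=
      Finset.sum_eq_zero fun i _ => by simp [av]
    rw [h1, add_zero]
    push_cast
    refine Finset.sum_congr rfl fun i _ => ?_
    simp only [av, vb, bh]
    by_cases h1 : α i = true <;> by_cases h2 : β i = true <;> simp [h1, h2]
  have ht : ((vb β (.inr (.inl ())) : ℤ) : ℝ) = 1 := by simp [vb]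
  rw [hs, hσ, ht]
  unfold gc
  ring

end Pool.Agent.V1154.XC
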