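import Mathlib
import Pool.Agent.V1154.XC.Qubo

/-! The pair of dual bases. -/

namespace Pool.Agent.V1154.XC

/-- the quadratic form of a matrix -/
def mq {ι : Type} [Fintype ι] (G : Matrix ι ι ℝ) (z : ι → ℝ) : ℝ := ∑ i, ∑ j, G i j * z i * z j

/-- The properties of the pair of dual bases `B`, `C` used for the lower and the upper bound. -/
structure Core (m : ℕ) {ι : Type} [Fintype ι] [DecidableEq ι] (B C : Matrix ι ι ℝ) : Prop where
  inv : B.transpose * C = 1
  off : ∀ i j, i ≠ j → (C.transpose * C) i j ≤ 0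
  row : ∀ i, 0 ≤ ∑ j, (C.transpose * C) i j
  fin : ∀ u : ι → ℝ, (∀ z : ι → ℤ, (∀ i, |z i| ≤ 1) →
      ∑ i, u i * (z i : ℝ) ≤ (1 / 2) * mq (B.transpose * B) (fun i => (z i : ℝ))) →
    ∀ z : ι → ℤ, ∑ i, u i * (z i : ℝ) ≤ (1 / 2) * mq (B.transpose * B) (fun i => (z i : ℝ))
  udisj : ∃ (u : (Fin m → Bool) → ι → ℝ) (z : (Fin m → Bool) → ι → ℤ),
    (∀ α (z' : ι → ℤ),
      ∑ i, u α i * (z' i : ℝ) ≤ (1 / 2) * mq (B.transpose * B) (fun i => (z' i : ℝ))) ∧
    (∀ α β, meet α β = 1 →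
      ∑ i, u α i * (z β i : ℝ) = (1 / 2) * mq (B.transpose * B) (fun i => (z β i : ℝ))) ∧
    (∀ α β, meet α β = 0 →
      ∑ i, u α i * (z β i : ℝ) ≠ (1 / 2) * mq (B.transpose * B) (fun i => (z β i : ℝ)))

theorem mq_submatrix {ι κ : Type} [Fintype ι] [Fintype κ] (e : κ ≃ ι) (G : Matrix ι ι ℝ)
    (z : κ → ℝ) : mq (G.submatrix e e) z = mq G (fun i => z (e.symm i)) := by
  unfold mq
  rw [← e.sum_comp]
  refine Finset.sum_congr rfl fun i _ => ?_
  rw [← e.sum_comp]
  refine Finset.sum_congr rfl fun j _ => ?_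
  simp

theorem Core.transfer {m : ℕ} {ι κ : Type} [Fintype ι] [DecidableEq ι] [Fintype κ]
    [DecidableEq κ] {B C : Matrix ι ι ℝ} (h : Core m B C) (e : κ ≃ ι) :
    Core m (B.submatrix e e) (C.submatrix e e) := by
  have hBB : (B.submatrix e e).transpose * (B.submatrix e e)
      = (B.transpose * B).submatrix e e := by
    rw [Matrix.transpose_submatrix, Matrix.submatrix_mul_equiv]
  have hCC : (C.submatrix e e).transpose * (C.submatrix e e)
      = (C.transpose * C).submatrix e e := by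
    rw [Matrix.transpose_submatrix, Matrix.submatrix_mul_equiv]
  have hsum : ∀ (u : κ → ℝ) (z : κ → ℤ), ∑ i, u i * (z i : ℝ)
      = ∑ i, u (e.symm i) * (z (e.symm i) : ℝ) := by
    intro u z
    rw [← e.sum_comp]
    simp
  refine ⟨?_, ?_, ?_, ?_, ?_⟩
  · rw [Matrix.transpose_submatrix, Matrix.submatrix_mul_equiv, h.inv, Matrix.submatrix_one_equiv]
  · intro i j hij
    rw [hCC]
    exact h.off _ _ (e.injective.ne hij)
  · intro i
    rw [hCC]
    have := h.row (e i)
    rw [← e.sum_comp] at this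
    exact this
  · intro u hu z
    rw [hBB, mq_submatrix, hsum]
    refine h.fin (fun i => u (e.symm i)) (fun z' hz' => ?_) (fun i => z (e.symm i))
    have := hu (fun k => z' (e k)) (fun k => hz' (e k))
    rw [hBB, mq_submatrix, hsum] at this
    simpa using this
  · obtain ⟨u, z, h1, h2, h3⟩ := h.udisj
    refine ⟨fun α k => u α (e k), fun β k => z β (e k), ?_, ?_, ?_⟩
    · intro α z'
      rw [hBB, mq_submatrix, hsum]
      simpa using h1 α (fun i => z' (e.symm i))
    · intro α β hm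
      rw [hBB, mq_submatrix, hsum]
      simpa using h2 α β hm
    · intro α β hm
      rw [hBB, mq_submatrix, hsum]
      simpa using h3 α β hm

theorem Am_symm (m : ℕ) (η : ℝ) (x y : Ix m) : Am m η x y = Am m η y x := by
  rcases x with i | i | p <;> rcases y with j | j | q <;> simp [Am, eq_comm]

theorem Am_diag (m : ℕ) (η : ℝ) (x : Ix m) : Am m η x x = 0 := by
  rcases x with i | i | p <;> simp [Am]

theorem Am_lower {m : ℕ} (hm : 1 ≤ m) (η : ℝ) (_hη0 : 0 < η) (hη1 : η ≤ 1) (x y : Ix m)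
    (hxy : x ≠ y) : η ≤ Am m η x y := by
  have hm1 : (1 : ℝ) ≤ m := by exact_mod_cast hm
  have hM : (0 : ℝ) ≤ Mw m := by unfold Mw; positivity
  have hite : ∀ (i j k : Bt m), (0 : ℝ) ≤ (if k = i then 1 else 0) + (if k = j then 1 else 0) := by
    intro i j k
    split_ifs <;> norm_num
  rcases x with i | i | p <;> rcases y with j | j | q
  · have hij : i ≠ j := fun h => hxy (by rw [h])
    simp only [Am, if_neg hij]
    linarith
  · simp only [Am]
    linarith
  · simp only [Am]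
    have := mul_nonneg (mul_nonneg zero_le_two hM) (hite q.1 q.2 i)
    linarith
  · simp only [Am]
    linarith
  · exact absurd rfl hxy
  · simp [Am]
  · simp only [Am]
    have := mul_nonneg (mul_nonneg zero_le_two hM) (hite p.1 p.2 j)
    linarith
  · simp [Am]
  · have hpq : p ≠ q := fun h => hxy (by rw [h])
    simp [Am, if_neg hpq]

theorem Am_bound {m : ℕ} (hm : 1 ≤ m) (η : ℝ) (hη0 : 0 < η) (hη1 : η ≤ 1) (x y : Ix m) :
    |Am m η x y| ≤ 20 * (m : ℝ) ^ 2 := by
  have hm1 : (1 : ℝ) ≤ m := by exact_mod_cast hm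
  have hm2 : (m : ℝ) ≤ (m : ℝ) ^ 2 := by nlinarith
  have hM : (0 : ℝ) ≤ Mw m := by unfold Mw; positivity
  have hM' : Mw m = 2 * m + 1 := rfl
  have hite : ∀ (i j k : Bt m), (0 : ℝ) ≤ (if k = i then 1 else 0) + (if k = j then 1 else 0) ∧
      (if k = i then (1 : ℝ) else 0) + (if k = j then 1 else 0) ≤ 2 := by
    intro i j k
    split_ifs <;> norm_num
  have hbw : ∀ (i j k : Bt m),
      |2 * Mw m * ((if k = i then 1 else 0) + (if k = j then 1 else 0)) + η|
      ≤ 20 * (m : ℝ) ^ 2 := by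
    intro i j k
    have h1 := mul_nonneg (mul_nonneg zero_le_two hM) (hite i j k).1
    have h2 := mul_le_mul_of_nonneg_left (hite i j k).2 (mul_nonneg zero_le_two hM)
    rw [abs_of_nonneg (by linarith)]
    linarith
  rcases x with i | i | p <;> rcases y with j | j | q
  · simp only [Am]
    split_ifs
    · rw [abs_zero]
      positivity
    · rw [abs_of_nonneg (by linarith)]
      linarith
  · simp only [Am]
    rw [abs_of_nonneg (by linarith)]
    linarith
  · exact hbw q.1 q.2 i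
  · simp only [Am]
    rw [abs_of_nonneg (by linarith)]
    linarith
  · simp only [Am, abs_zero]
    positivity
  · simp only [Am]
    rw [abs_of_nonneg hη0.le]
    linarith
  · exact hbw p.1 p.2 j
  · simp only [Am]
    rw [abs_of_nonneg hη0.le]
    linarith
  · simp only [Am]
    split_ifs
    · rw [abs_zero]
      positivity
    · rw [abs_of_nonneg hη0.le]
      linarith

theorem La_bound {m : ℕ} (hm : 1 ≤ m) (α : Fin m → Bool) (x : Ix m) :
    |La (1 / (44 * (m : ℝ) ^ 4)) α x| ≤ 20 * (m : ℝ) ^ 2 := by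
  have hm1 : (1 : ℝ) ≤ m := by exact_mod_cast hm
  have hm2 : (m : ℝ) ≤ (m : ℝ) ^ 2 := by nlinarith
  have hM' : Mw m = 2 * m + 1 := rfl
  rcases x with i | i | p
  · simp only [La]
    have := av_bounds α i
    rw [abs_le]
    constructor <;> linarith
  · simp only [La]
    have h1 := eta_bound hm 0 0 1 le_rfl (by linarith) le_rfl (by positivity) zero_le_one le_rfl
    have h2 : 1 / (44 * (m : ℝ) ^ 4) * ((1 / 2) * ((0 : ℝ) ^ 2 - 0) + 1 * 0 - 0 * 0 - gc m * 1)
        = -(1 / (44 * (m : ℝ) ^ 4) * gc m) := by ring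
    rw [h2, abs_neg] at h1
    have h3 := abs_le.1 h1
    rw [abs_le]
    constructor
    · nlinarith [h3.1, h3.2]
    · nlinarith [h3.1, h3.2]
  · simp only [La]
    have h1 := av_bounds α p.1
    have h2 := av_bounds α p.2
    have h3 : 0 ≤ av α p.1 * av α p.2 := mul_nonneg h1.1 h2.1
    have h4 : av α p.1 * av α p.2 ≤ 1 := mul_le_one₀ h1.2 h2.1 h2.2
    rw [abs_le]
    constructor <;> linarith

/-- the points -/
noncomputable def uu {m : ℕ} (ε η : ℝ) (α : Fin m → Bool) (x : Ix m) : ℝ :=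
  (sgn m x : ℝ) * (1 / 2 - ε * La η α x)

theorem sgn_sq (m : ℕ) (x : Ix m) : sgn m x * sgn m x = 1 := by
  rcases x with i | i <;> simp [sgn]

theorem slack_id {m : ℕ} (ε η : ℝ) (α : Fin m → Bool) (z v : Ix m → ℤ)
    (hz : ∀ x, z x = sgn m x * v x) :
    (1 / 2) * gq (Am m η) ε (fun x => (z x : ℝ)) - ∑ x, uu ε η α x * (z x : ℝ)
      = (1 / 2) * ∑ x, (((v x : ℝ)) ^ 2 - v x)
        + ε * ((1 / 2) * ∑ x, ∑ y, (Am m η x y * ((sgn m x : ℝ) * (sgn m y : ℝ))) * v x * v y
          + ∑ x, La η α x * v x) := by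
  have hsq : ∀ x, (sgn m x : ℝ) * (sgn m x : ℝ) = 1 := by
    intro x
    exact_mod_cast sgn_sq m x
  have h1 : ∑ x, ((z x : ℝ)) ^ 2 = ∑ x, ((v x : ℝ)) ^ 2 := by
    refine Finset.sum_congr rfl fun x _ => ?_
    rw [hz x]
    push_cast
    linear_combination ((v x : ℝ)) ^ 2 * hsq x
  have h2 : ∑ x, ∑ y, Am m η x y * (z x : ℝ) * (z y : ℝ)
      = ∑ x, ∑ y, (Am m η x y * ((sgn m x : ℝ) * (sgn m y : ℝ))) * v x * v y := by
    refine Finset.sum_congr rfl fun x _ => Finset.sum_congr rfl fun y _ => ?_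
    rw [hz x, hz y]
    push_cast
    ring
  have h3 : ∑ x, uu ε η α x * (z x : ℝ)
      = (1 / 2) * ∑ x, (v x : ℝ) - ε * ∑ x, La η α x * v x := by
    rw [Finset.mul_sum, Finset.mul_sum, ← Finset.sum_sub_distrib]
    refine Finset.sum_congr rfl fun x _ => ?_
    rw [hz x]
    unfold uu
    push_cast
    linear_combination ((1 / 2 - ε * La η α x) * (v x : ℝ)) * hsq x
  unfold gq
  simp only [h1, h2, h3, Finset.sum_sub_distrib]
  ring

theorem exists_eps (k c : ℝ) (hk : 0 ≤ k) (hc : 0 < c) :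
    ∃ δ > 0, ∀ ε, 0 < ε → ε ≤ δ → ε * k ≤ c := by
  refine ⟨c / (k + 1), by positivity, fun ε h0 h1 => ?_⟩
  rw [le_div_iff₀ (by positivity)] at h1
  nlinarith

open scoped MatrixOrder in
theorem core_ix (m : ℕ) (hm : 1 ≤ m) : ∃ B C : Matrix (Ix m) (Ix m) ℝ, Core m B C := by
  have hm1 : (1 : ℝ) ≤ m := by exact_mod_cast hm
  set η : ℝ := 1 / (44 * (m : ℝ) ^ 4) with hη
  have hη0 : 0 < η := by positivity
  have hη1 : η ≤ 1 := by
    rw [hη, div_le_one (by positivity)]
    have : (1 : ℝ) ≤ (m : ℝ) ^ 4 := one_le_pow₀ hm1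
    linarith
  set K : ℝ := 20 * (m : ℝ) ^ 2 with hK
  have hK0 : 0 ≤ K := by positivity
  set D : ℝ := (Fintype.card (Ix m) : ℝ) with hD
  have hD0 : 0 ≤ D := Nat.cast_nonneg _
  obtain ⟨δ1, hδ1, h1⟩ := exists_eps (K * ((D + 2) * (D + 4))) 2 (by positivity) (by norm_num)
  obtain ⟨δ2, hδ2, h2⟩ := exists_eps (K * D) (1 / 2) (by positivity) (by norm_num)
  obtain ⟨δ3, hδ3, h3⟩ := exists_eps (2 * K ^ 2 * D ^ 2) η (by positivity) hη0
  obtain ⟨δ4, hδ4, h4⟩ := exists_eps (2 * K * D ^ 2) 1 (by positivity) one_pos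
  set ε := min (min δ1 δ2) (min δ3 δ4) with hε
  have hε0 : 0 < ε := lt_min (lt_min hδ1 hδ2) (lt_min hδ3 hδ4)
  have e1 := h1 ε hε0 ((min_le_left _ _).trans (min_le_left _ _))
  have e2 := h2 ε hε0 ((min_le_left _ _).trans (min_le_right _ _))
  have e3 := h3 ε hε0 ((min_le_right _ _).trans (min_le_left _ _))
  have e4 := h4 ε hε0 ((min_le_right _ _).trans (min_le_right _ _))
  have e1' : ε * K * ((D + 2) * (D + 4)) ≤ 2 := by rw [mul_assoc]; exact e1
  have e2' : ε * K * D ≤ 1 / 2 := by rw [mul_assoc]; exact e2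
  set A : Matrix (Ix m) (Ix m) ℝ := Matrix.of (Am m η) with hA
  have hAb : ∀ i j, |A i j| ≤ K := fun i j => Am_bound hm η hη0 hη1 i j
  set G : Matrix (Ix m) (Ix m) ℝ := 1 + ε • A with hG
  have hmq : ∀ z : Ix m → ℝ, mq G z = gq (Am m η) ε z := by
    intro z
    unfold mq gq
    have : ∀ i j, G i j * z i * z j
        = (if i = j then z i * z j else 0) + ε * (Am m η i j * z i * z j) := by
      intro i j
      rw [hG, Matrix.add_apply, Matrix.smul_apply, Matrix.one_apply]
      simp only [smul_eq_mul, hA, Matrix.of_apply]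
      split_ifs <;> ring
    simp only [this, Finset.sum_add_distrib, Finset.sum_ite_eq, Finset.mem_univ, if_true]
    rw [Finset.mul_sum]
    congr 1
    · exact Finset.sum_congr rfl fun i _ => by ring
    · exact Finset.sum_congr rfl fun i _ => by rw [Finset.mul_sum]
  have hpos : ∀ z : Ix m → ℝ, z ≠ 0 → 0 < mq G z := by
    intro z hz
    rw [hmq]
    unfold gq
    have h5 := (abs_le.1 (quad_abs_le (Am m η) K hAb z)).1
    have h6 : 0 < ∑ i, z i ^ 2 := by
      obtain ⟨i, hi⟩ := Function.ne_iff.1 hz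
      exact Finset.sum_pos' (fun i _ => sq_nonneg _) ⟨i, Finset.mem_univ _, by
        have : z i ≠ 0 := hi
        positivity⟩
    have h7 := mul_le_mul_of_nonneg_left h5 hε0.le
    have h8 : ε * (K * (D * ∑ i, z i ^ 2)) ≤ (1 / 2) * ∑ i, z i ^ 2 := by
      have := mul_le_mul_of_nonneg_right e2' h6.le
      linarith [this, show ε * (K * (D * ∑ i, z i ^ 2)) = ε * K * D * ∑ i, z i ^ 2 by ring]
    simp only [← hD] at h7
    linarith
  have hherm : G.IsHermitian := by
    ext i j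
    rw [Matrix.conjTranspose_apply, hG]
    simp only [Matrix.add_apply, Matrix.smul_apply, hA, Matrix.of_apply, smul_eq_mul, star_trivial]
    rw [Am_symm m η j i]
    congr 1
    rw [Matrix.one_apply, Matrix.one_apply]
    simp only [eq_comm]
  have hPD : G.PosDef := by
    refine Matrix.PosDef.of_dotProduct_mulVec_pos hherm fun x hx => ?_
    have := hpos x hx
    unfold mq at this
    refine this.trans_le (le_of_eq ?_)
    rw [dotProduct]
    refine Finset.sum_congr rfl fun i _ => ?_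
    rw [Matrix.mulVec, dotProduct, Finset.mul_sum]
    refine Finset.sum_congr rfl fun j _ => ?_
    simp
    ring
  obtain ⟨B, hB⟩ := CStarAlgebra.nonneg_iff_eq_star_mul_self.mp hPD.posSemidef.nonneg
  rw [Matrix.star_eq_conjTranspose, Matrix.conjTranspose_eq_transpose_of_trivial] at hB
  have hdetG : G.det ≠ 0 := hPD.det_pos.ne'
  have hdetB : IsUnit B.det := by
    rw [isUnit_iff_ne_zero]
    intro h0
    apply hdetG
    rw [hB, Matrix.det_mul, h0, mul_zero]
  refine ⟨B, (B⁻¹).transpose, ?_, ?_, ?_, ?_, ?_⟩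
  · rw [← Matrix.transpose_mul, Matrix.nonsing_inv_mul _ hdetB, Matrix.transpose_one]
  all_goals
    have hNG : ((B⁻¹).transpose.transpose * (B⁻¹).transpose) * (1 + ε • A) = 1 := by
      rw [← hG, hB, Matrix.transpose_transpose, mul_assoc, ← mul_assoc (B⁻¹).transpose,
        ← Matrix.transpose_mul, Matrix.mul_nonsing_inv _ hdetB, Matrix.transpose_one, one_mul,
        Matrix.nonsing_inv_mul _ hdetB]
    have hsig := inverse_signs A _ K η ε hAb (fun i j hij => Am_lower hm η hη0 hη1 i j hij) hε0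
      hK0 e2' e3 e4 hNG
  · exact hsig.1
  · exact hsig.2
  · rw [← hB]
    intro u hu
    simp only [hmq] at hu ⊢
    exact finite_det (Am m η) K ε hAb (Am_diag m η) hK0 hε0.le e1' u hu
  · rw [← hB]
    simp only [hmq]
    refine ⟨uu ε η, fun β x => sgn m x * vb β x, ?_, ?_, ?_⟩
    · intro α z'
      have hid := slack_id ε η α z' (fun x => sgn m x * z' x) (fun x => by
        rw [← mul_assoc, sgn_sq, one_mul])
      have hnn : 0 ≤ (1 / 2) * ∑ x, ((((sgn m x * z' x : ℤ) : ℝ)) ^ 2 - ((sgn m x * z' x : ℤ) : ℝ))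
          + ε * ((1 / 2) * ∑ x, ∑ y, (Am m η x y * ((sgn m x : ℝ) * (sgn m y : ℝ)))
            * ((sgn m x * z' x : ℤ) : ℝ) * ((sgn m y * z' y : ℤ) : ℝ)
            + ∑ x, La η α x * ((sgn m x * z' x : ℤ) : ℝ)) := by
        by_cases h01 : ∀ x, sgn m x * z' x = 0 ∨ sgn m x * z' x = 1
        · have hsq : ∀ x, (((sgn m x * z' x : ℤ) : ℝ)) ^ 2 = ((sgn m x * z' x : ℤ) : ℝ) := by
            intro x
            rcases h01 x with h | h <;> rw [h] <;> norm_num
          rw [fa_eq η α (fun x => ((sgn m x * z' x : ℤ) : ℝ)) hsq]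
          have h5 := fa_nonneg hm α (fun x => sgn m x * z' x) h01
          have h6 : ∑ x, ((((sgn m x * z' x : ℤ) : ℝ)) ^ 2 - ((sgn m x * z' x : ℤ) : ℝ)) = 0 :=
            Finset.sum_eq_zero fun x _ => by rw [hsq, sub_self]
          rw [h6]
          have := mul_nonneg hε0.le h5
          linarith
        · push Not at h01
          obtain ⟨x0, hx0⟩ := h01
          refine perturb (fun x y => Am m η x y * ((sgn m x : ℝ) * (sgn m y : ℝ))) (La η α) K ε
            ?_ (fun x => La_bound hm α x) hε0.le e1' (fun x => sgn m x * z' x)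
            ⟨x0, fun h => h.elim hx0.1 hx0.2⟩
          intro x y
          have hs : ∀ x, |(sgn m x : ℝ)| = 1 := by
            intro x
            rcases x with i | i <;> simp [sgn]
          rw [abs_mul, abs_mul, hs, hs, mul_one, mul_one]
          exact hAb x y
      linarith
    · intro α β hmeet
      have hid := slack_id ε η α (fun x => sgn m x * vb β x) (vb β) (fun x => rfl)
      have hsq : ∀ x, (((vb β x : ℤ) : ℝ)) ^ 2 = ((vb β x : ℤ) : ℝ) := by
        intro x
        rcases vb_01 β x with h | h <;> rw [h] <;> norm_num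
      rw [fa_eq η α (fun x => ((vb β x : ℤ) : ℝ)) hsq, fa_val] at hid
      have h6 : ∑ x, ((((vb β x : ℤ) : ℝ)) ^ 2 - ((vb β x : ℤ) : ℝ)) = 0 :=
        Finset.sum_eq_zero fun x _ => by rw [hsq, sub_self]
      rw [h6, hmeet] at hid
      have e : (1 / 2 : ℝ) * 0 + ε * (1 - ((1 : ℕ) : ℝ)) ^ 2 = 0 := by norm_num
      rw [e] at hid
      exact (sub_eq_zero.1 hid).symm
    · intro α β hmeet hcon
      have hid := slack_id ε η α (fun x => sgn m x * vb β x) (vb β) (fun x => rfl)
      have hsq : ∀ x, (((vb β x : ℤ) : ℝ)) ^ 2 = ((vb β x : ℤ) : ℝ) := by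
        intro x
        rcases vb_01 β x with h | h <;> rw [h] <;> norm_num
      rw [fa_eq η α (fun x => ((vb β x : ℤ) : ℝ)) hsq, fa_val] at hid
      have h6 : ∑ x, ((((vb β x : ℤ) : ℝ)) ^ 2 - ((vb β x : ℤ) : ℝ)) = 0 :=
        Finset.sum_eq_zero fun x _ => by rw [hsq, sub_self]
      rw [h6, hmeet, ← hcon] at hid
      have e : (1 / 2 : ℝ) * 0 + ε * (1 - ((0 : ℕ) : ℝ)) ^ 2 = ε := by norm_num
      rw [e, sub_self] at hid
      exact hε0.ne hid

end Pool.Agent.V1154.XC
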