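import Mathlib

/-! Extended formulations and extension complexity. -/

namespace Pool.Agent.V1154.XC

/-- The polyhedron in `ℝ^N` given by `r` linear inequalities and `s` linear equations. -/
def Poly {N r s : ℕ} (a : Fin r → Fin N → ℝ) (b : Fin r → ℝ) (c : Fin s → Fin N → ℝ)
    (e : Fin s → ℝ) : Set (Fin N → ℝ) :=
  {x | (∀ i, ∑ k, a i k * x k ≤ b i) ∧ ∀ j, ∑ k, c j k * x k = e j}

/-- `P` is a linear image of a polytope described by `r` linear inequalities (and any number of
linear equations). -/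
def HasEF {V : Type} [AddCommGroup V] [Module ℝ V] (P : Set V) (r : ℕ) : Prop :=
  ∃ (N s : ℕ) (a : Fin r → Fin N → ℝ) (b : Fin r → ℝ) (c : Fin s → Fin N → ℝ) (e : Fin s → ℝ)
    (π : (Fin N → ℝ) →ₗ[ℝ] V), Bornology.IsBounded (Poly a b c e) ∧ π '' (Poly a b c e) = P

/-- Extension complexity. -/
noncomputable def xc {V : Type} [AddCommGroup V] [Module ℝ V] (P : Set V) : ℕ :=
  sInf {r | HasEF P r}

end Pool.Agent.V1154.XC
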