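import Mathlib
import Pool.Agent.V1154.XC.Defs
import Pool.Agent.V1154.XC.KW

/-! The rectangle covering lower bound for extended formulations. -/

namespace Pool.Agent.V1154.XC

open Filter Topology

theorem rect_cover {V : Type} [AddCommGroup V] [Module ℝ V] (P : Set V) (r : ℕ)
    (hP : HasEF P r) {Z Y : Type} (l : Z → V →ₗ[ℝ] ℝ) (h : Z → ℝ)
    (hval : ∀ z, ∀ p ∈ P, l z p ≤ h z) (y : Y → V) (hy : ∀ t, y t ∈ P) :
    ∃ (A : Fin (r + 1) → Z → Prop) (B : Fin (r + 1) → Y → Prop),
      (∀ k z t, A k z → B k t → l z (y t) ≠ h z) ∧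
      (∀ z t, l z (y t) ≠ h z → ∃ k, A k z ∧ B k t) := by
  classical
  obtain ⟨N, s, a, b, c, e, π, -, hπ⟩ := hP
  set Q := Poly a b c e with hQ
  have hx : ∀ t, ∃ x ∈ Q, π x = y t := by
    intro t
    have := hy t
    rw [← hπ] at this
    exact this
  choose x hxQ hxy using hx
  let F : Z → Set (Fin N → ℝ) := fun z => {q | q ∈ Q ∧ l z (π q) = h z}
  refine ⟨fun k z => Fin.lastCases (motive := fun _ => Prop) (¬ (F z).Nonempty)
      (fun i => ∀ q ∈ F z, ∑ j, a i j * q j = b i) k,
    fun k t => Fin.lastCases (motive := fun _ => Prop) True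
      (fun i => ∑ j, a i j * x t j < b i) k, ?_, ?_⟩
  · intro k z t hA hB heq
    have hF : x t ∈ F z := ⟨hxQ t, by rw [hxy]; exact heq⟩
    revert hA hB
    refine Fin.lastCases ?_ (fun i => ?_) k
    · intro hA _
      simp only [Fin.lastCases_last] at hA
      exact hA ⟨_, hF⟩
    · intro hA hB
      simp only [Fin.lastCases_castSucc] at hA hB
      exact absurd (hA _ hF) hB.ne
  · intro z t hne
    by_cases hFn : (F z).Nonempty
    swap
    · refine ⟨Fin.last r, ?_, ?_⟩
      · simp only [Fin.lastCases_last]
        exact hFn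
      · simp only [Fin.lastCases_last]
    by_contra hcon
    push Not at hcon
    have hcon' : ∀ i : Fin r, (∀ q ∈ F z, ∑ j, a i j * q j = b i) →
        ¬ (∑ j, a i j * x t j < b i) := by
      intro i hi
      have := hcon i.castSucc
      simp only [Fin.lastCases_castSucc] at this
      exact this hi
    -- a point of the face with the fewest tight inequalities
    let T : (Fin N → ℝ) → Finset (Fin r) :=
      fun q => Finset.univ.filter fun i => ∑ j, a i j * q j = b i
    obtain ⟨q, hqF, hqmin⟩ := WellFounded.has_min (measure fun q => (T q).card).wf (F z) hFn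
    have htight : ∀ i, ∑ j, a i j * q j = b i → ∀ q' ∈ F z, ∑ j, a i j * q' j = b i := by
      intro i hi q' hq'
      by_contra hi'
      have hmidF : (fun j => (1 / 2 : ℝ) * q j + (1 / 2) * q' j) ∈ F z := by
        refine ⟨⟨fun i' => ?_, fun j => ?_⟩, ?_⟩
        · have h1 := hqF.1.1 i'
          have h2 := hq'.1.1 i'
          have : ∑ k, a i' k * ((1 / 2 : ℝ) * q k + (1 / 2) * q' k)
              = (1 / 2) * (∑ k, a i' k * q k) + (1 / 2) * ∑ k, a i' k * q' k := by
            rw [Finset.mul_sum, Finset.mul_sum, ← Finset.sum_add_distrib]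
            exact Finset.sum_congr rfl fun k _ => by ring
          rw [this]
          linarith
        · have h1 := hqF.1.2 j
          have h2 := hq'.1.2 j
          have : ∑ k, c j k * ((1 / 2 : ℝ) * q k + (1 / 2) * q' k)
              = (1 / 2) * (∑ k, c j k * q k) + (1 / 2) * ∑ k, c j k * q' k := by
            rw [Finset.mul_sum, Finset.mul_sum, ← Finset.sum_add_distrib]
            exact Finset.sum_congr rfl fun k _ => by ring
          rw [this, h1, h2]
          ring
        · have : (fun j => (1 / 2 : ℝ) * q j + (1 / 2) * q' j)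
              = (1 / 2 : ℝ) • q + (1 / 2 : ℝ) • q' := by
            funext j
            simp
          rw [this, map_add, map_smul, map_smul, map_add, map_smul, map_smul, hqF.2, hq'.2,
            smul_eq_mul]
          ring
      have hlt : (T (fun j => (1 / 2 : ℝ) * q j + (1 / 2) * q' j)).card < (T q).card := by
        refine Finset.card_lt_card ?_
        rw [Finset.ssubset_iff_of_subset]
        · refine ⟨i, by simpa [T] using hi, ?_⟩
          simp only [T, Finset.mem_filter, Finset.mem_univ, true_and]
          have h2 := lt_of_le_of_ne (hq'.1.1 i) hi'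
          have : ∑ k, a i k * ((1 / 2 : ℝ) * q k + (1 / 2) * q' k)
              = (1 / 2) * (∑ k, a i k * q k) + (1 / 2) * ∑ k, a i k * q' k := by
            rw [Finset.mul_sum, Finset.mul_sum, ← Finset.sum_add_distrib]
            exact Finset.sum_congr rfl fun k _ => by ring
          rw [this, hi]
          intro h3
          linarith
        · intro i' hi''
          simp only [T, Finset.mem_filter, Finset.mem_univ, true_and] at hi'' ⊢
          have h1 := hqF.1.1 i'
          have h2 := hq'.1.1 i'
          have : ∑ k, a i' k * ((1 / 2 : ℝ) * q k + (1 / 2) * q' k)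
              = (1 / 2) * (∑ k, a i' k * q k) + (1 / 2) * ∑ k, a i' k * q' k := by
            rw [Finset.mul_sum, Finset.mul_sum, ← Finset.sum_add_distrib]
            exact Finset.sum_congr rfl fun k _ => by ring
          rw [this] at hi''
          linarith
      exact hqmin _ hmidF hlt
    -- extend the segment from `x t` through `q` a bit beyond `q`
    have hlin : ∀ (g : Fin N → ℝ) (δ : ℝ), ∑ k, g k * (q k + δ * (q k - x t k))
        = (∑ k, g k * q k) + δ * ((∑ k, g k * q k) - ∑ k, g k * x t k) := by
      intro g δ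
      rw [← Finset.sum_sub_distrib, Finset.mul_sum, ← Finset.sum_add_distrib]
      exact Finset.sum_congr rfl fun k _ => by ring
    have hev : ∀ i : Fin r, ∀ᶠ δ in 𝓝[>] (0 : ℝ),
        ∑ k, a i k * (q k + δ * (q k - x t k)) ≤ b i := by
      intro i
      simp only [hlin]
      by_cases hi : ∑ j, a i j * q j = b i
      · have h1 := hcon' i (htight i hi)
        have h2 : ∑ j, a i j * x t j = b i := le_antisymm ((hxQ t).1 i) (not_lt.1 h1)
        rw [hi, h2]
        exact Eventually.of_forall fun δ => by simp
      · have h1 : ∑ j, a i j * q j < b i := lt_of_le_of_ne (hqF.1.1 i) hi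
        have hc : Continuous fun δ : ℝ => (∑ k, a i k * q k)
            + δ * ((∑ k, a i k * q k) - ∑ k, a i k * x t k) := by fun_prop
        have h2 : ∀ᶠ δ in 𝓝 (0 : ℝ), (∑ k, a i k * q k)
            + δ * ((∑ k, a i k * q k) - ∑ k, a i k * x t k) < b i := by
          refine hc.continuousAt.eventually_lt continuousAt_const ?_
          simpa using h1
        exact (h2.filter_mono nhdsWithin_le_nhds).mono fun δ hδ => hδ.le
    have hpos : ∀ᶠ δ in 𝓝[>] (0 : ℝ), 0 < δ := eventually_mem_nhdsWithin
    obtain ⟨δ, hδ1, hδ0⟩ := ((eventually_all.2 hev).and hpos).exists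
    have hmem : (fun k => q k + δ * (q k - x t k)) ∈ Q := by
      refine ⟨hδ1, fun j => ?_⟩
      rw [hlin, hqF.1.2 j, (hxQ t).2 j]
      ring
    have h5 := hval z (π (fun k => q k + δ * (q k - x t k))) (by rw [← hπ]; exact ⟨_, hmem, rfl⟩)
    have h6 : (fun k => q k + δ * (q k - x t k)) = q + δ • (q - x t) := by
      funext k
      simp
    rw [h6, map_add, map_smul, map_sub, map_add, map_smul, map_sub, hqF.2, hxy, smul_eq_mul] at h5
    have h7 : l z (y t) < h z := lt_of_le_of_ne (hval z _ (hy t)) hne
    nlinarith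

/-- Lower bound for the extension complexity of a polytope whose slack matrix contains unique
disjointness. -/
theorem udisj_bound {V : Type} [AddCommGroup V] [Module ℝ V] (P : Set V) (r n : ℕ)
    (hP : HasEF P r) (l : (Fin n → Bool) → V →ₗ[ℝ] ℝ) (h : (Fin n → Bool) → ℝ)
    (hval : ∀ z, ∀ p ∈ P, l z p ≤ h z) (y : (Fin n → Bool) → V) (hy : ∀ t, y t ∈ P)
    (h1 : ∀ a b, meet a b = 1 → l a (y b) = h a)
    (h0 : ∀ a b, meet a b = 0 → l a (y b) ≠ h a) : 3 ^ n ≤ (r + 1) * 2 ^ n := by
  obtain ⟨A, B, hA, hB⟩ := rect_cover P r hP l h hval y hy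
  refine cover_bound n (r + 1) A B (fun k a b ha hb hm => ?_) (fun a b hm => ?_)
  · exact hA k a b ha hb (h1 a b hm)
  · exact hB a b (h0 a b hm)

end Pool.Agent.V1154.XC
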