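import Mathlib
import Pool.Agent.V1154.XC.Core
import Pool.Agent.V1154.XC.Cover

/-! Explicit extended formulations. -/

namespace Pool.Agent.V1154.XC

theorem hasEF_of_fintype {V : Type} [AddCommGroup V] [Module ℝ V] {κ ρ : Type} [Fintype κ]
    [Fintype ρ] (a : ρ → κ → ℝ) (b : ρ → ℝ) (π : (κ → ℝ) →ₗ[ℝ] V)
    (hbd : Bornology.IsBounded {x : κ → ℝ | ∀ i, ∑ k, a i k * x k ≤ b i}) :
    HasEF (π '' {x : κ → ℝ | ∀ i, ∑ k, a i k * x k ≤ b i}) (Fintype.card ρ) := by
  classical
  let eκ := Fintype.equivFin κ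
  let eρ := Fintype.equivFin ρ
  let L : (Fin (Fintype.card κ) → ℝ) →ₗ[ℝ] (κ → ℝ) := LinearMap.funLeft ℝ ℝ eκ
  let L' : (κ → ℝ) →ₗ[ℝ] (Fin (Fintype.card κ) → ℝ) := LinearMap.funLeft ℝ ℝ eκ.symm
  have hLL' : ∀ x, L (L' x) = x := by
    intro x
    funext k
    simp [L, L', LinearMap.funLeft]
  have hL'L : ∀ x, L' (L x) = x := by
    intro x
    funext k
    simp [L, L', LinearMap.funLeft]
  have hsum : ∀ (i : Fin (Fintype.card ρ)) (x : Fin (Fintype.card κ) → ℝ),
      ∑ k, a (eρ.symm i) (eκ.symm k) * x k = ∑ k, a (eρ.symm i) k * L x k := by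
    intro i x
    rw [← eκ.sum_comp]
    refine Finset.sum_congr rfl fun k _ => ?_
    simp [L, LinearMap.funLeft]
  have hiff : ∀ x, x ∈ Poly (fun i k => a (eρ.symm i) (eκ.symm k)) (fun i => b (eρ.symm i))
      (s := 0) (fun j => j.elim0) (fun j => j.elim0) ↔ L x ∈ {x : κ → ℝ | ∀ i, ∑ k, a i k * x k ≤ b i} := by
    intro x
    constructor
    · rintro ⟨h1, -⟩ i
      have := h1 (eρ i)
      rw [hsum] at this
      simpa using this
    · intro h
      refine ⟨fun i => ?_, fun j => j.elim0⟩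
      rw [hsum]
      exact h _
  refine ⟨Fintype.card κ, 0, fun i k => a (eρ.symm i) (eκ.symm k), fun i => b (eρ.symm i),
    fun j => j.elim0, fun j => j.elim0, π ∘ₗ L, ?_, ?_⟩
  · have hsub : Poly (fun i k => a (eρ.symm i) (eκ.symm k)) (fun i => b (eρ.symm i))
      (s := 0) (fun j => j.elim0) (fun j => j.elim0)
        ⊆ L' '' {x : κ → ℝ | ∀ i, ∑ k, a i k * x k ≤ b i} := by
      intro x hx
      exact ⟨L x, (hiff x).1 hx, hL'L x⟩
    refine Bornology.IsBounded.subset ?_ hsub
    exact (LinearMap.toContinuousLinearMap L').lipschitz.isBounded_image hbd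
  · ext y
    constructor
    · rintro ⟨x, hx, rfl⟩
      exact ⟨L x, (hiff x).1 hx, rfl⟩
    · rintro ⟨x, hx, rfl⟩
      refine ⟨L' x, ?_, ?_⟩
      · rw [hiff, hLL']
        exact hx
      · rw [LinearMap.comp_apply, hLL']

theorem cube_ef {V : Type} [AddCommGroup V] [Module ℝ V] {κ : Type} [Fintype κ]
    (π : (κ → ℝ) →ₗ[ℝ] V) : HasEF (π '' cube κ) (2 * Fintype.card κ) := by
  classical
  have h : cube κ = {x : κ → ℝ | ∀ i : κ ⊕ κ,
      ∑ k, (Sum.elim (fun j => (Pi.single j (1 : ℝ) : κ → ℝ))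
        (fun j => (Pi.single j (-1 : ℝ) : κ → ℝ)) i) k * x k ≤ 1 / 2} := by
    ext x
    constructor
    · rintro hx (j | j)
      · simp only [Sum.elim_inl]
        rw [Finset.sum_eq_single j]
        · simpa using (hx j).2
        · intro k _ hk
          simp [hk]
        · simp
      · simp only [Sum.elim_inr]
        rw [Finset.sum_eq_single j]
        · have := (hx j).1
          simp only [Pi.single_eq_same]
          linarith
        · intro k _ hk
          simp [hk]
        · simp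
    · intro hx j
      have h1 := hx (Sum.inl j)
      have h2 := hx (Sum.inr j)
      simp only [Sum.elim_inl] at h1
      simp only [Sum.elim_inr] at h2
      rw [Finset.sum_eq_single j (fun k _ hk => by simp [hk]) (by simp)] at h1 h2
      simp only [Pi.single_eq_same] at h1 h2
      exact ⟨by linarith, by linarith⟩
  have hbd : Bornology.IsBounded (cube κ) := (cube_compact κ).isBounded
  rw [h] at hbd ⊢
  have := hasEF_of_fintype _ _ π hbd
  rwa [Fintype.card_sum, ← two_mul] at this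

/-- For a symmetric matrix, the quadratic form in Selling parameters. -/
theorem mq_eq_qf {d : ℕ} (N : Matrix (Fin d) (Fin d) ℝ) (hN : ∀ i j, N i j = N j i)
    (z : Fin d → ℝ) :
    mq N z = qf (fun i => ∑ j, N i j) (fun i j => if i = j then 0 else - N i j) z := by
  unfold mq qf
  have h1 : ∑ i, ∑ j, (if i = j then 0 else - N i j) * (z i - z j) ^ 2
      = - (∑ i, ∑ j, N i j * z i ^ 2) - (∑ i, ∑ j, N i j * z j ^ 2)
        + 2 * ∑ i, ∑ j, N i j * z i * z j := by
    rw [Finset.mul_sum, ← Finset.sum_neg_distrib, ← Finset.sum_sub_distrib,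
      ← Finset.sum_add_distrib]
    refine Finset.sum_congr rfl fun i _ => ?_
    rw [Finset.mul_sum, ← Finset.sum_neg_distrib, ← Finset.sum_sub_distrib,
      ← Finset.sum_add_distrib]
    refine Finset.sum_congr rfl fun j _ => ?_
    split_ifs with h
    · rw [h]
      ring
    · ring
  have h2 : ∑ i, ∑ j, N i j * z j ^ 2 = ∑ i, ∑ j, N i j * z i ^ 2 := by
    rw [Finset.sum_comm]
    refine Finset.sum_congr rfl fun i _ => Finset.sum_congr rfl fun j _ => ?_
    rw [hN j i]
  have h3 : ∑ i, (∑ j, N i j) * z i ^ 2 = ∑ i, ∑ j, N i j * z i ^ 2 :=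
    Finset.sum_congr rfl fun i _ => by rw [Finset.sum_mul]
  rw [h1, h2, h3]
  ring

end Pool.Agent.V1154.XC
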